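import Pool.Agent.H8.Alt.C3.Sound4
import Pool.Agent.H76.Alt.Eng
import Pool.Agent.H3.Alt.Valid
import Mathlib.Tactic.IntervalCases

/-!
# From the final check to the engine statement for `ν`
-/

namespace H8Alt.C3

open H8Alt.Super H8Alt.Super.G

theorem mem_ins (p : ℕ → Bool) (i k : ℕ) (L : List ℕ) : k ∈ (ins p i L).2 ↔ k = i ∨ k ∈ L := by
  induction L with
  | nil => simp [ins]
  | cons j L ih =>
    rw [ins]
    split_ifs with h
    · simp
    · simp only [List.mem_cons, ih]
      tauto

theorem mem_srt (p : ℕ → Bool) (k : ℕ) (L : List ℕ) : k ∈ (srt p L).2 ↔ k ∈ L := by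
  induction L with
  | nil => simp [srt]
  | cons j L ih => rw [srt, mem_ins, ih, List.mem_cons]

theorem ins_congr {p q : ℕ → Bool} {i : ℕ} {L : List ℕ} (hi : p i = q i)
    (h : ∀ k ∈ L, p k = q k) : ins p i L = ins q i L := by
  induction L with
  | nil => rfl
  | cons j L ih =>
    rw [ins, ins, ih fun k hk => h k (List.mem_cons_of_mem _ hk), hi, h j List.mem_cons_self]

theorem srt_congr {p q : ℕ → Bool} {L : List ℕ} (h : ∀ k ∈ L, p k = q k) :
    srt p L = srt q L := by
  induction L with
  | nil => rfl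
  | cons j L ih =>
    have h1 := ih fun k hk => h k (List.mem_cons_of_mem _ hk)
    have h2 : ins p j (srt q L).2 = ins q j (srt q L).2 :=
      ins_congr (h j List.mem_cons_self) fun k hk =>
        h k (List.mem_cons_of_mem _ ((mem_srt q k L).1 hk))
    rw [srt, srt, h1, h2]

section
variable {S : Type*} [AddCommGroup S] {M : Sem S}

theorem evT_congr {x y : ℕ → S} {t : Tr} (h : ∀ i ∈ t.leaves, x i = y i) :
    M.evT x t = M.evT y t := by
  induction t with
  | l i => exact h i (by simp [Tr.leaves])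
  | c s t ihs iht =>
    rw [Sem.evT, Sem.evT, ihs fun i hi => h i (by simp [Tr.leaves, hi]),
      iht fun i hi => h i (by simp [Tr.leaves, hi])]
  | a s t u ihs iht ihu =>
    rw [Sem.evT, Sem.evT, ihs fun i hi => h i (by simp [Tr.leaves, hi]),
      iht fun i hi => h i (by simp [Tr.leaves, hi]),
      ihu fun i hi => h i (by simp [Tr.leaves, hi])]

theorem evR_congr {x y : ℕ → S} {t : RT} (h : ∀ i ∈ t.leaves, x i = y i) :
    M.evR x t = M.evR y t := by
  cases t with
  | c s t =>
    rw [Sem.evR, Sem.evR, evT_congr fun i hi => h i (by simp [RT.leaves, hi]),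
      evT_congr (t := t) fun i hi => h i (by simp [RT.leaves, hi])]
  | a s t u =>
    rw [Sem.evR, Sem.evR, evT_congr fun i hi => h i (by simp [RT.leaves, hi]),
      evT_congr (t := t) fun i hi => h i (by simp [RT.leaves, hi]),
      evT_congr (t := u) fun i hi => h i (by simp [RT.leaves, hi])]
  | j s t =>
    rw [Sem.evR, Sem.evR, evT_congr fun i hi => h i (by simp [RT.leaves, hi]),
      evT_congr (t := t) fun i hi => h i (by simp [RT.leaves, hi])]

theorem evS_congr {p q : ℕ → Bool} {x y : ℕ → S} {s : List (ℤ × RT)}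
    (h : ∀ t ∈ s, ∀ i ∈ t.2.leaves, p i = q i ∧ x i = y i) : M.evS p x s = M.evS q y s := by
  induction s with
  | nil => rfl
  | cons t s ih =>
    have h1 : kos p t.2.leaves = kos q t.2.leaves := by
      rw [kos, kos, srt_congr fun k hk => (h t List.mem_cons_self k hk).1]
    rw [Sem.evS, Sem.evS, h1, evR_congr fun i hi => (h t List.mem_cons_self i hi).2,
      ih fun t ht => h t (List.mem_cons_of_mem _ ht)]

/-- the list of the arguments of the target -/
def nuArgs : List ℕ := [2, 2, 2, 1, 1, 3, 3, 5, 5]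

theorem parA_nuArgs : parA nuArgs = 504 := by decide +kernel

theorem engN_of {DK : ℕ} (h3 : ∀ x : S, (3 : ℤ) • x = 0) (hD : validD DK 64 = true) (sT : ES)
    (hT : chkL 512 nuT sT.2 = true)
    (hfin : ∀ gen : ℕ → S, Ctx M DK gen →
      evE M (xA (val M DK gen) nuArgs) (parA nuArgs) sT.2 = 0) : EngN M := by
  intro x hx h1 h2 h4 h6 h8
  let gen : ℕ → S := fun i =>
    if i = 1 then x 3 else if i = 2 then x 0 else if i = 3 then x 5 else if i = 5 then x 7 else 0
  have hC : Ctx M DK gen := by
    refine ⟨h3, hD, ?_, rfl⟩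
    intro i hi
    interval_cases i
    · exact AddSubgroup.zero_mem _
    · exact hx 3
    · exact hx 0
    · exact hx 5
    · exact AddSubgroup.zero_mem _
    · exact hx 7
  have h := hfin gen hC
  rw [parA_nuArgs, chkL_sound h3 nuT sT.2 hT 504 (by norm_num)] at h
  rw [← h]
  apply evS_congr
  intro t ht i hi
  have hi2 : i ∈ [0, 1, 2, 3, 4, 5, 6, 7, 8] := by
    rw [← multi_nuT t ht, mem_srt]; exact hi
  have hx' : ∀ j, j < 6 → xA (val M DK gen) [j] 0 = gen j := by
    intro j hj
    have e : xA (val M DK gen) [j] 0 = val M DK gen (j % 4096) := rfl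
    rw [e, Nat.mod_eq_of_lt (by omega), val_gen M DK gen hj]
  simp only [List.mem_cons, List.not_mem_nil, or_false] at hi2
  rcases hi2 with rfl | rfl | rfl | rfl | rfl | rfl | rfl | rfl | rfl
  · exact ⟨by decide, (hx' 2 (by norm_num)).symm⟩
  · exact ⟨by decide, h1.trans (hx' 2 (by norm_num)).symm⟩
  · exact ⟨by decide, h2.trans (hx' 2 (by norm_num)).symm⟩
  · exact ⟨by decide, (hx' 1 (by norm_num)).symm⟩
  · exact ⟨by decide, h4.trans (hx' 1 (by norm_num)).symm⟩
  · exact ⟨by decide, (hx' 3 (by norm_num)).symm⟩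
  · exact ⟨by decide, h6.trans (hx' 3 (by norm_num)).symm⟩
  · exact ⟨by decide, (hx' 5 (by norm_num)).symm⟩
  · exact ⟨by decide, h8.trans (hx' 5 (by norm_num)).symm⟩

end

/-- validity of an engine schema in `A ⊗ Λ` -/
theorem vs_of {A : Type*} [NonUnitalNonAssocRing A] [IsAlternative A] {n : ℕ}
    (h3 : ∀ x : Fn n A, (3 : ℤ) • x = 0) {s : List (ℤ × RT)} (hO : OValid A s) {L : List ℕ}
    (hM : Multi L s) (hL : L.Nodup) {e : ES} (h : chkL e.1 s e.2 = true) : VS (semA A n) e :=
  VS_of_SValid h3 (svalid hO hM hL) h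

end H8Alt.C3
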