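import Pool.Agent.H8.Alt.C3.Sound3
import Pool.Agent.H8.Alt.Super.Schemas

/-!
# Soundness of the checker, IV: from super schemas to engine schemas
-/

namespace H8Alt.C3

open H8Alt.Super (Tr RT Sem srt kos)

deriving instance DecidableEq for H8Alt.Super.Tr
deriving instance DecidableEq for H8Alt.Super.RT

/-! ### Koszul signs by counting inversions -/

/-- parity of the number of odd inversions of `i` with the elements of `L` -/
def ct (p : ℕ → Bool) (i : ℕ) : List ℕ → Bool
  | [] => false
  | j :: L => xor (decide (j < i) && (p i && p j)) (ct p i L)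

theorem ct_perm {p : ℕ → Bool} {i : ℕ} {L L' : List ℕ} (h : L.Perm L') : ct p i L = ct p i L' := by
  induction h with
  | nil => rfl
  | cons x _ ih => rw [ct, ct, ih]
  | swap x y l =>
    rw [ct, ct, ct, ct, ← Bool.xor_assoc, ← Bool.xor_assoc]
    congr 1
    exact Bool.xor_comm _ _
  | trans _ _ ih1 ih2 => exact ih1.trans ih2

theorem ct_ge {p : ℕ → Bool} {i : ℕ} {L : List ℕ} (h : ∀ j ∈ L, i ≤ j) : ct p i L = false := by
  induction L with
  | nil => rfl
  | cons j L ih =>
    have h1 : ¬ j < i := by have := h j List.mem_cons_self; omega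
    rw [ct, ih fun k hk => h k (List.mem_cons_of_mem _ hk)]
    simp [h1]

theorem ins_perm (p : ℕ → Bool) (i : ℕ) (L : List ℕ) : (H8Alt.Super.ins p i L).2.Perm (i :: L) := by
  induction L with
  | nil => exact List.Perm.refl _
  | cons j L ih =>
    rw [H8Alt.Super.ins]
    split_ifs with h
    · exact List.Perm.refl _
    · exact (List.Perm.cons j ih).trans (List.Perm.swap i j L)

theorem srt_perm (p : ℕ → Bool) (L : List ℕ) : (srt p L).2.Perm L := by
  induction L with
  | nil => exact List.Perm.refl _
  | cons i L ih => exact (ins_perm p i _).trans (List.Perm.cons i ih)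

theorem ins_sorted {p : ℕ → Bool} {i : ℕ} {L : List ℕ} (h : L.Pairwise (· ≤ ·)) :
    (H8Alt.Super.ins p i L).2.Pairwise (· ≤ ·) := by
  induction L with
  | nil => simp [H8Alt.Super.ins]
  | cons j L ih =>
    rw [H8Alt.Super.ins]
    rw [List.pairwise_cons] at h
    split_ifs with hij
    · rw [List.pairwise_cons, List.pairwise_cons]
      refine ⟨?_, h⟩
      intro k hk
      rcases List.mem_cons.1 hk with rfl | hk
      · exact hij
      · exact hij.trans (h.1 k hk)
    · rw [List.pairwise_cons]
      refine ⟨?_, ih h.2⟩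
      intro k hk
      rcases List.mem_cons.1 ((ins_perm p i L).mem_iff.1 hk) with rfl | hk
      · omega
      · exact h.1 k hk

theorem srt_sorted (p : ℕ → Bool) (L : List ℕ) : (srt p L).2.Pairwise (· ≤ ·) := by
  induction L with
  | nil => exact List.Pairwise.nil
  | cons i L ih => exact ins_sorted ih

theorem ins_ct {p : ℕ → Bool} {i : ℕ} {L : List ℕ} (h : L.Pairwise (· ≤ ·)) :
    (H8Alt.Super.ins p i L).1 = ct p i L := by
  induction L with
  | nil => rfl
  | cons j L ih =>
    rw [H8Alt.Super.ins, ct]
    rw [List.pairwise_cons] at h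
    split_ifs with hij
    · have h1 : ¬ j < i := by omega
      rw [ct_ge fun k hk => hij.trans (h.1 k hk)]
      simp [h1]
    · have h1 : j < i := by omega
      rw [ih h.2]
      simp [h1]

/-- inversions of a list -/
def iv (p : ℕ → Bool) : List ℕ → Bool
  | [] => false
  | i :: L => xor (iv p L) (ct p i L)

theorem srt_iv (p : ℕ → Bool) (L : List ℕ) : (srt p L).1 = iv p L := by
  induction L with
  | nil => rfl
  | cons i L ih => rw [srt, iv, ih, ins_ct (srt_sorted p L), ct_perm (srt_perm p L)]

/-- number whose last bit is the parity of the number of odd `j` in `L` with `j < i` -/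
noncomputable def ctR (pm i : ℕ) (L : List ℕ) : ℕ :=
  List.rec (motive := fun _ => ℕ) 0
    (fun j _ ih => Bool.rec (motive := fun _ => ℕ) ih (Nat.xor (Nat.shiftRight pm j) ih)
      (Nat.ble (Nat.succ j) i)) L

/-- number whose last bit is the Koszul sign of `L` -/
noncomputable def ivR (pm : ℕ) (L : List ℕ) : ℕ :=
  List.rec (motive := fun _ => ℕ) 0
    (fun i L ih => Nat.xor ih (Nat.land (Nat.shiftRight pm i) (ctR pm i L))) L

/-- last bit -/
def lb (n : ℕ) : Bool := decide (n % 2 = 1)

theorem lb_xor (a b : ℕ) : lb (a ^^^ b) = xor (lb a) (lb b) := by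
  have h : (a ^^^ b) % 2 = (a % 2 + b % 2) % 2 := by
    have h1 : (a ^^^ b) % 2 = ((a ^^^ b) % 2 ^ 1) := by rw [pow_one]
    rw [h1, Nat.xor_mod_two_pow, pow_one]
    rcases Nat.mod_two_eq_zero_or_one a with ha | ha <;>
      rcases Nat.mod_two_eq_zero_or_one b with hb | hb <;> rw [ha, hb] <;> rfl
  rw [lb, lb, lb, h]
  rcases Nat.mod_two_eq_zero_or_one a with ha | ha <;>
    rcases Nat.mod_two_eq_zero_or_one b with hb | hb <;> rw [ha, hb] <;> rfl

theorem lb_and (a b : ℕ) : lb (a &&& b) = (lb a && lb b) := by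
  rw [lb, lb, lb, and_mod2]
  rcases Nat.mod_two_eq_zero_or_one a with ha | ha <;>
    rcases Nat.mod_two_eq_zero_or_one b with hb | hb <;> rw [ha, hb] <;> rfl

theorem lb_shift (pm i : ℕ) : lb (pm >>> i) = pm.testBit i := by
  rw [lb, Nat.testBit_eq_decide_div_mod_eq, Nat.shiftRight_eq_div_pow]

theorem ctR_eq (pm i : ℕ) (L : List ℕ) :
    (pm.testBit i && lb (ctR pm i L)) = ct (fun k => pm.testBit k) i L := by
  induction L with
  | nil => simp [ctR, ct, lb]
  | cons j L ih =>
    have e : ctR pm i (j :: L) = Bool.rec (motive := fun _ => ℕ) (ctR pm i L)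
      (Nat.xor (Nat.shiftRight pm j) (ctR pm i L)) (Nat.ble (Nat.succ j) i) := rfl
    rw [e, ct, ← ih]
    by_cases hj : Nat.ble (Nat.succ j) i = true
    · have hj' : j < i := Nat.le_of_ble_eq_true hj
      rw [hj]
      change (pm.testBit i && lb ((pm >>> j) ^^^ ctR pm i L)) = _
      rw [lb_xor, lb_shift]
      cases pm.testBit i <;> cases pm.testBit j <;> cases lb (ctR pm i L) <;> simp [hj']
    · have hj' : ¬ j < i := fun h => hj (Nat.ble_eq_true_of_le h)
      rw [Bool.not_eq_true] at hj
      rw [hj]
      change (pm.testBit i && lb (ctR pm i L)) = _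
      simp [hj']

theorem ivR_eq (pm : ℕ) (L : List ℕ) : lb (ivR pm L) = iv (fun k => pm.testBit k) L := by
  induction L with
  | nil => simp [ivR, iv, lb]
  | cons i L ih =>
    have e : ivR pm (i :: L) = (ivR pm L) ^^^ ((pm >>> i) &&& ctR pm i L) := rfl
    rw [e, lb_xor, lb_and, lb_shift, ih, iv, ctR_eq]

/-- check the sign table of a term (`kb`: the coefficient is `-1`) -/
noncomputable def chkT (kb : Bool) (L : List ℕ) (T : ℕ) (n : ℕ) : Bool :=
  Nat.rec (motive := fun _ => Bool) true
    (fun pm ih => Bool.rec (motive := fun _ => Bool) false ih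
      (Nat.beq (Nat.mod (Nat.xor (Nat.shiftRight T pm) (Nat.xor
        (Bool.rec (motive := fun _ => ℕ) 0 1 kb) (ivR pm L))) 2) 0)) n

/-- check the first term of a list -/
noncomputable def chkH (n : ℕ) (kb : Bool) (r : RT) (e : List (ℕ × RT)) : Bool :=
  match e with
  | [] => false
  | t :: _ => decide (r = t.2) && chkT kb r.leaves t.1 n

/-- check a list of terms -/
noncomputable def chkL (n : ℕ) : List (ℤ × RT) → List (ℕ × RT) → Bool
  | [], e => e.isEmpty
  | t :: s, e =>
    if t.1 % 3 = 0 then chkL n s e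
    else chkH n (decide (t.1 % 3 = 2)) t.2 e && chkL n s e.tail

theorem chkT_sound {kb : Bool} {L : List ℕ} {T n : ℕ} (h : chkT kb L T n = true) :
    ∀ pm < n, (T >>> pm) % 2 = if xor kb (srt (fun i => pm.testBit i) L).1 then 1 else 0 := by
  induction n with
  | zero => intro pm hpm; exact absurd hpm (by omega)
  | succ n ih =>
    have e : chkT kb L T (n + 1) = Bool.rec (motive := fun _ => Bool) false (chkT kb L T n)
      (Nat.beq (Nat.mod (Nat.xor (Nat.shiftRight T n) (Nat.xor
        (Bool.rec (motive := fun _ => ℕ) 0 1 kb) (ivR n L))) 2) 0) := rfl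
    rw [e] at h
    obtain ⟨h1, h2⟩ := bool2 h
    intro pm hpm
    rcases Nat.lt_succ_iff_lt_or_eq.1 hpm with h4 | h4
    · exact ih h2 pm h4
    · subst h4
      have h5 : ((T >>> pm) ^^^ ((Bool.rec (motive := fun _ => ℕ) 0 1 kb) ^^^ (ivR pm L))) % 2 = 0 :=
        Nat.eq_of_beq_eq_true h1
      have h6 : lb ((T >>> pm) ^^^ ((Bool.rec (motive := fun _ => ℕ) 0 1 kb) ^^^ (ivR pm L))) =
        false := by rw [lb, h5]; rfl
      have h7 : lb (Bool.rec (motive := fun _ => ℕ) 0 1 kb) = kb := by cases kb <;> rfl
      rw [lb_xor, lb_xor, ivR_eq, ← srt_iv, h7] at h6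
      have h8 : lb (T >>> pm) = xor kb (srt (fun i => pm.testBit i) L).1 := by
        generalize xor kb (srt (fun i => pm.testBit i) L).1 = z at *
        generalize lb (T >>> pm) = y at *
        cases y <;> cases z <;> simp_all
      rw [← h8, lb]
      rcases Nat.mod_two_eq_zero_or_one (T >>> pm) with h9 | h9 <;> rw [h9] <;> rfl

section
variable {S : Type*} [AddCommGroup S] {M : Sem S} (h3 : ∀ x : S, (3 : ℤ) • x = 0)
include h3

theorem smul_mod3 (k : ℤ) (x : S) : k • x = (k % 3) • x := by
  conv_lhs => rw [← Int.emod_add_mul_ediv k 3]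
  rw [add_smul, mul_comm, mul_smul, h3, smul_zero, add_zero]

theorem term_eq {kb : Bool} {L : List ℕ} {T n : ℕ} (h : chkT kb L T n = true) {pm : ℕ}
    (hpm : pm < n) {k : ℤ} (hk : k % 3 = if kb then 2 else 1) (x : S) :
    sg (T >>> pm) • x = (k * kos (fun i => pm.testBit i) L) • x := by
  have h1 := chkT_sound h pm hpm
  have h2 : k • x = (if kb then (-1 : ℤ) else 1) • x := by
    rw [smul_mod3 h3 k, hk]
    cases kb with
    | false => rfl
    | true =>
      have := h3 x
      simp only [if_true]
      linear_combination (norm := module) this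
  rw [mul_comm k, mul_smul, h2, kos, sg, h1]
  cases kb <;> cases (srt (fun i => pm.testBit i) L).1 <;> simp

theorem chkL_sound {n : ℕ} (s : List (ℤ × RT)) : ∀ (e : List (ℕ × RT)), chkL n s e = true →
    ∀ pm < n, ∀ x : ℕ → S, evE M x pm e = M.evS (fun i => pm.testBit i) x s := by
  induction s with
  | nil =>
    intro e h pm _ x
    cases e with
    | nil => rfl
    | cons t e => exact absurd h (by simp [chkL])
  | cons t s ih =>
    obtain ⟨k, r⟩ := t
    intro e h pm hpm x
    rw [chkL] at h
    have hk0 : 0 ≤ k % 3 := Int.emod_nonneg k (by norm_num)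
    have hk3 : k % 3 < 3 := Int.emod_lt_of_pos k (by norm_num)
    split_ifs at h with hk
    · rw [Sem.evS, ← ih e h pm hpm x]
      have hk' : k % 3 = 0 := hk
      have : (k * kos (fun i => pm.testBit i) r.leaves) • M.evR x r = 0 := by
        rw [mul_comm, mul_smul, smul_mod3 h3 k, hk', zero_smul, smul_zero]
      rw [this, zero_add]
    · rw [Bool.and_eq_true] at h
      obtain ⟨h1, h2⟩ := h
      cases e with
      | nil => exact absurd h1 (by simp [chkH])
      | cons u e =>
        obtain ⟨T, r'⟩ := u
        rw [chkH, Bool.and_eq_true, decide_eq_true_eq] at h1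
        obtain ⟨h5, h6⟩ := h1
        change r = r' at h5
        subst h5
        rw [evE, Sem.evS, ih e h2 pm hpm x,
          term_eq h3 h6 hpm (k := k) (by
            have hk' : ¬ k % 3 = 0 := hk
            by_cases h7 : k % 3 = 2
            · simp [h7]
            · have : k % 3 = 1 := by omega
              simp [this])]

/-- a super valid schema gives a valid engine schema -/
theorem VS_of_SValid {s : List (ℤ × RT)} (hs : M.SValid s) {e : ES} (h : chkL e.1 s e.2 = true) :
    VS M e := by
  intro pm hpm x hx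
  rw [chkL_sound h3 s e.2 h pm hpm x]
  exact hs _ x hx

end

end H8Alt.C3
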