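import Pool.Agent.H8.Alt.Super.Schemas
import Mathlib.Data.Nat.Bitwise

/-!
# A verified checker for super Lie-ternary identities with `3 = 0`

A signed word is a number `2 g + s` (index `g`, sign bit `s`); the parity of the word `g` is the
parity of the number `g`, and the word `0` has the value zero.  Lists of signed words are packed in
base `8192` with digits `2 g + s`.  Rows over the field with three elements are pairs of masks (positive and negative
part; a position which is set in both has the value zero); the lower 64 bits carry no meaning.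
All functions are written with raw recursors so that the kernel evaluates them quickly.
-/

namespace H8Alt.C3

open H8Alt.Super (Tr RT)

/-- search trees with keys `k`, values `v` and certificates `c` -/
inductive TT
  | lf : TT
  | nd (l : TT) (k v c : ℕ) (r : TT) : TT

/-- trees of schema instances: index, schema number, arguments, row -/
inductive IT
  | lf : IT
  | nd (l : IT) (i s : ℕ) (args : List ℕ) (P M : ℕ) (r : IT) : IT

/-- row accumulators -/
inductive AC
  | bad : AC
  | mk (P M : ℕ) : AC

/-- encoded bind: `0` is failure, `n+1` is the value `n` -/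
noncomputable def nb {α : Type} (bad : α) (x : ℕ) (f : ℕ → α) : α :=
  Nat.rec (motive := fun _ => α) bad (fun n _ => f n) x

/-- bind for encoded lists -/
noncomputable def bnN (x : ℕ) (f : ℕ → ℕ) : ℕ :=
  Nat.rec (motive := fun _ => ℕ) 0 (fun n _ => f (Nat.succ n)) x

/-- bind for row accumulators -/
noncomputable def bnA (x : AC) (f : AC → AC) : AC :=
  AC.rec (motive := fun _ => AC) AC.bad (fun P M => f (AC.mk P M)) x

noncomputable def find (x : ℕ) (t : TT) : ℕ :=
  TT.rec (motive := fun _ => ℕ) 0
    (fun _ k v _ _ fl fr =>
      Bool.rec (motive := fun _ => ℕ)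
        (Bool.rec (motive := fun _ => ℕ) v fr (Nat.ble (Nat.succ k) x)) fl
        (Nat.ble (Nat.succ x) k)) t

noncomputable def findI (x : ℕ) (k : ℕ → ℕ → AC) (t : IT) : AC :=
  IT.rec (motive := fun _ => AC) AC.bad
    (fun _ i _ _ P M _ fl fr =>
      Bool.rec (motive := fun _ => AC)
        (Bool.rec (motive := fun _ => AC) (k P M) fr (Nat.ble (Nat.succ i) x)) fl
        (Nat.ble (Nat.succ x) i)) t

section
variable {α : Type} (bn : α → (α → α) → α) (bad : α)

/-- loop over the digits of a packed list (encoded), threading an accumulator -/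
noncomputable def loopD (f : ℕ → α → α) (fuel : ℕ) : ℕ → α → α :=
  Nat.rec (motive := fun _ => ℕ → α → α) (fun _ _ => bad)
    (fun _ ih L1 acc =>
      nb bad L1 fun L =>
        Bool.rec (motive := fun _ => α)
          (nb bad (Nat.succ (Nat.mod L 8192)) fun a =>
            bn (f a acc) fun acc' => ih (Nat.succ (Nat.div L 8192)) acc')
          acc (Nat.beq L 0)) fuel

/-- loop with the standard fuel -/
noncomputable def loopR (f : ℕ → α → α) (L : ℕ) (acc : α) : α :=
  loopD bn bad f 4100 (Nat.succ L) acc

noncomputable def pk2 (i j : ℕ) : ℕ := 68719476736 + i * 16777216 + j * 4096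
noncomputable def pk3 (i j l : ℕ) : ℕ := 137438953472 + i * 16777216 + j * 4096 + l
noncomputable def pkj (i j : ℕ) : ℕ := 206158430208 + i * 16777216 + j * 4096

variable (psh : ℕ → ℕ → α → α) (t : TT)

/-- evaluate the key, look it up, push the result to the accumulator with sign `n` -/
noncomputable def look (k n : ℕ) (acc : α) : α :=
  nb bad (Nat.succ k) fun x => psh (find x t) n acc

/-- commutator of two basis words -/
noncomputable def t2 (i j n : ℕ) (acc : α) : α :=
  Bool.rec (motive := fun _ => α)
    (Bool.rec (motive := fun _ => α) (look bad psh t (pk2 i j) n acc)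
      (look bad psh t (pk2 j i) (Nat.xor n (Nat.succ (Nat.land i j))) acc)
      (Nat.ble (Nat.succ j) i))
    (Bool.rec (motive := fun _ => α) (look bad psh t (pk2 i j) n acc) acc
      (Nat.beq (Nat.mod i 2) 0))
    (Nat.beq i j)

/-- Jordan product of two basis words -/
noncomputable def tj (i j n : ℕ) (acc : α) : α :=
  Bool.rec (motive := fun _ => α)
    (Bool.rec (motive := fun _ => α) (look bad psh t (pkj i j) n acc)
      (look bad psh t (pkj j i) (Nat.xor n (Nat.land i j)) acc)
      (Nat.ble (Nat.succ j) i))
    (Bool.rec (motive := fun _ => α) acc (look bad psh t (pkj i j) n acc)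
      (Nat.beq (Nat.mod i 2) 0))
    (Nat.beq i j)

/-- associator of three basis words, `i ≤ j ≤ l` -/
noncomputable def t3f (i j l n : ℕ) (acc : α) : α :=
  Bool.rec (motive := fun _ => α)
    (Bool.rec (motive := fun _ => α) (look bad psh t (pk3 i j l) n acc)
      (Bool.rec (motive := fun _ => α) (look bad psh t (pk3 i j l) n acc) acc
        (Nat.beq (Nat.mod j 2) 0))
      (Nat.beq j l))
    (Bool.rec (motive := fun _ => α) (look bad psh t (pk3 i j l) n acc) acc
      (Nat.beq (Nat.mod i 2) 0))
    (Nat.beq i j)

/-- associator of three basis words, `i ≤ j` -/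
noncomputable def t3s (i j l n : ℕ) (acc : α) : α :=
  Bool.rec (motive := fun _ => α)
    (t3f bad psh t i j l n acc)
    (Bool.rec (motive := fun _ => α)
      (t3f bad psh t i l j (Nat.xor n (Nat.succ (Nat.land j l))) acc)
      (t3f bad psh t l i j
        (Nat.xor (Nat.xor n (Nat.succ (Nat.land j l))) (Nat.succ (Nat.land i l))) acc)
      (Nat.ble (Nat.succ l) i))
    (Nat.ble (Nat.succ l) j)

/-- associator of three basis words -/
noncomputable def t3 (i j l n : ℕ) (acc : α) : α :=
  Bool.rec (motive := fun _ => α)
    (t3s bad psh t i j l n acc)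
    (t3s bad psh t j i l (Nat.xor n (Nat.succ (Nat.land i j))) acc)
    (Nat.ble (Nat.succ j) i)

/-- loop over signed words: index and total sign -/
noncomputable def loopW (f : ℕ → ℕ → α → α) (n L : ℕ) (acc : α) : α :=
  loopR bn bad (fun a acc' =>
    nb bad (Nat.succ (Nat.div a 2)) fun i => nb bad (Nat.succ (Nat.xor n a)) fun n' =>
      f i n' acc') L acc

noncomputable def b2 (L1 L2 n : ℕ) (acc : α) : α :=
  loopW bn bad (fun i n1 a1 => loopW bn bad (fun j n2 a2 => t2 bad psh t i j n2 a2) n1 L2 a1)
    n L1 acc
noncomputable def bj (L1 L2 n : ℕ) (acc : α) : α :=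
  loopW bn bad (fun i n1 a1 => loopW bn bad (fun j n2 a2 => tj bad psh t i j n2 a2) n1 L2 a1)
    n L1 acc
noncomputable def b3 (L1 L2 L3 n : ℕ) (acc : α) : α :=
  loopW bn bad (fun i n1 a1 => loopW bn bad (fun j n2 a2 =>
    loopW bn bad (fun l n3 a3 => t3 bad psh t i j l n3 a3) n2 L3 a2) n1 L2 a1) n L1 acc

end

/-- push the elements of a list (encoded) with sign `n` -/
noncomputable def pushL (v n acc : ℕ) : ℕ :=
  nb 0 v fun L => nb 0 (Nat.succ (Nat.mod n 2)) fun s =>
    loopR bnN 0 (fun a b => nb 0 b fun x =>
      Nat.succ (Nat.add (Nat.mul x 8192) (Nat.xor a s))) L acc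

/-- tagged unit mask -/
noncomputable def unitM (i : ℕ) : ℕ :=
  Nat.add (Nat.pow 2 (Nat.add i 64))
    (Nat.mod (Nat.mul (Nat.succ i) 11400714819323198485) 18446744073709551616)

/-- add a mask to the positive part -/
noncomputable def addU (a b u : ℕ) (f : ℕ → ℕ → AC) : AC :=
  nb AC.bad (Nat.succ (Nat.xor a (Nat.land a b))) fun y =>
    nb AC.bad (Nat.succ (Nat.xor u y)) fun P =>
      nb AC.bad (Nat.succ (Nat.xor (Nat.xor b (Nat.land a b)) (Nat.land y u))) fun M => f P M

/-- add two rows -/
noncomputable def addR (a b p q : ℕ) : AC :=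
  nb AC.bad (Nat.succ (Nat.xor a q)) fun x =>
    nb AC.bad (Nat.succ (Nat.land (Nat.xor a b) x)) fun g =>
      nb AC.bad (Nat.succ (Nat.xor p g)) fun P =>
        nb AC.bad (Nat.succ (Nat.xor (Nat.xor b x) (Nat.land (Nat.xor a p) g))) fun M =>
          AC.mk P M

/-- push a symbol to a row with sign `n` -/
noncomputable def pushA (v n : ℕ) (acc : AC) : AC :=
  nb AC.bad v fun i =>
    AC.rec (motive := fun _ => AC) AC.bad (fun a b =>
      Bool.rec (motive := fun _ => AC)
        (addU b a (unitM i) fun P M => AC.mk M P)
        (addU a b (unitM i) fun P M => AC.mk P M)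
        (Nat.beq (Nat.mod n 2) 0)) acc

noncomputable def getA (l : List ℕ) : ℕ → ℕ :=
  List.rec (motive := fun _ => ℕ → ℕ) (fun _ => 0)
    (fun x _ ih i => Nat.rec (motive := fun _ => ℕ) x (fun n _ => ih n) i) l

/-- mask of the parities of the arguments -/
noncomputable def parA (l : List ℕ) : ℕ :=
  List.rec (motive := fun _ => ℕ) 0 (fun x _ ih => Nat.add (Nat.mod x 2) (Nat.mul 2 ih)) l

/-- normal form of a tree (encoded list) -/
noncomputable def evN (low : TT) (args : List ℕ) (t : Tr) : ℕ :=
  Tr.rec (motive := fun _ => ℕ) (fun i => Nat.succ (Nat.mod (Nat.mul 2 (getA args i)) 8192))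
    (fun _ _ x y => nb 0 x fun m => nb 0 y fun n => b2 bnN 0 pushL low m n 0 1)
    (fun _ _ _ x y z => nb 0 x fun m => nb 0 y fun n => nb 0 z fun o =>
      b3 bnN 0 pushL low m n o 0 1) t

noncomputable def evR (low top : TT) (args : List ℕ) (t : RT) (n : ℕ) (acc : AC) : AC :=
  RT.rec (motive := fun _ => AC)
    (fun s t => nb AC.bad (evN low args s) fun x => nb AC.bad (evN low args t) fun y =>
      b2 bnA AC.bad pushA top x y n acc)
    (fun s t u => nb AC.bad (evN low args s) fun x => nb AC.bad (evN low args t) fun y =>
      nb AC.bad (evN low args u) fun z => b3 bnA AC.bad pushA top x y z n acc)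
    (fun s t => nb AC.bad (evN low args s) fun x => nb AC.bad (evN low args t) fun y =>
      bj bnA AC.bad pushA top x y n acc) t

/-- row of a schema; `pm` is the mask of the parities of the arguments -/
noncomputable def evL (low top : TT) (args : List ℕ) (pm : ℕ) (s : List (ℕ × RT)) : AC → AC :=
  List.rec (motive := fun _ => AC → AC) (fun acc => acc)
    (fun t _ ih acc =>
      bnA (nb AC.bad (Nat.succ (Nat.shiftRight t.1 pm)) fun n => evR low top args t.2 n acc)
        fun acc' => ih acc') s

/-- a schema: the number `2 ^ n` for `n` letters, and a list of terms with their sign tables -/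
abbrev ES := ℕ × List (ℕ × RT)

/-- row of a schema instance -/
noncomputable def evS (low top : TT) (args : List ℕ) (s : ES) (acc : AC) : AC :=
  nb AC.bad (Nat.succ (parA args)) fun pm =>
    Bool.rec (motive := fun _ => AC) AC.bad (evL low top args pm s.2 acc)
      (Nat.ble (Nat.succ pm) s.1)

/-- schema number `n` -/
noncomputable def getS (l : List ES) : ℕ → ES :=
  List.rec (motive := fun _ => ℕ → ES) (fun _ => (0, []))
    (fun x _ ih i => Nat.rec (motive := fun _ => ES) x (fun n _ => ih n) i) l

/-- Boolean bind -/
noncomputable def nbB (x : ℕ) (f : ℕ → Bool) : Bool :=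
  Nat.rec (motive := fun _ => Bool) false (fun n _ => f n) x

/-- compare an accumulator with a row, in normal form -/
noncomputable def cmpR (acc : AC) (P M : ℕ) : Bool :=
  AC.rec (motive := fun _ => Bool) false (fun a b =>
    nbB (Nat.succ (Nat.xor a b)) fun x =>
      Bool.rec (motive := fun _ => Bool) false (Nat.beq (Nat.land b x) M)
        (Nat.beq (Nat.land a x) P)) acc

/-- check all rows of an instance tree -/
noncomputable def checkI (S : List ES) (low top : TT) (t : IT) : Bool :=
  IT.rec (motive := fun _ => Bool) true
    (fun _ _ s args P M _ cl cr =>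
      Bool.rec (motive := fun _ => Bool) false
        (Bool.rec (motive := fun _ => Bool) false cr cl)
        (cmpR (evS low top args (getS S s) (AC.mk 0 0)) P M)) t

/-- field number `i` of a packed table with 40-bit fields -/
noncomputable def fld (K i : ℕ) : ℕ := Nat.mod (Nat.shiftRight K (Nat.mul 40 i)) 1099511627776

/-- check a symbol tree against the packed key table -/
noncomputable def checkK (K : ℕ) (t : TT) : Bool :=
  TT.rec (motive := fun _ => Bool) true
    (fun _ k v _ _ cl cr =>
      Bool.rec (motive := fun _ => Bool) false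
        (Bool.rec (motive := fun _ => Bool) false
          (Bool.rec (motive := fun _ => Bool) false cr cl)
          (Nat.beq (fld K (Nat.pred v)) k))
        (Nat.ble v 8192)) t

/-- sum of the rows in a signed list -/
noncomputable def sumRows (it : IT) (c : ℕ) : AC :=
  loopR bnA AC.bad (fun a acc =>
    AC.rec (motive := fun _ => AC) AC.bad (fun A B =>
      Bool.rec (motive := fun _ => AC)
        (findI (Nat.div a 2) (fun P M => addR A B M P) it)
        (findI (Nat.div a 2) (fun P M => addR A B P M) it)
        (Nat.beq (Nat.mod a 2) 0)) acc) c (AC.mk 0 0)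

/-- add the defining symbols of a normal form -/
noncomputable def defAdd (DK : ℕ) (top : TT) (L : ℕ) (acc : AC) : AC :=
  loopR bnA AC.bad (fun a b => Bool.rec (motive := fun _ => AC) AC.bad
    (look AC.bad pushA top (fld DK (Nat.div a 2)) a b) (Nat.ble 12 a)) L acc

/-- the accumulator is zero -/
noncomputable def isZ (acc : AC) : Bool :=
  AC.rec (motive := fun _ => Bool) false (fun a b => Nat.beq a b) acc

/-- check one node of a normal form table; `L` is the normal form -/
noncomputable def checkN (DK : ℕ) (top : TT) (it : IT) (k L c : ℕ) : Bool :=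
  Bool.rec (motive := fun _ => Bool)
    (isZ (bnA (sumRows it c) fun r => bnA (defAdd DK top L r) fun w =>
        look AC.bad pushA top k 1 w))
    (Bool.rec (motive := fun _ => Bool) false
      (Bool.rec (motive := fun _ => Bool) false
        (Bool.rec (motive := fun _ => Bool) false
          (Nat.beq (fld DK (Nat.div L 2)) k)
          (Nat.beq (Nat.mod L 2) 0))
        (Nat.ble L 8191))
      (Nat.ble 12 L))
    (Nat.beq c 0)

noncomputable def checkC (DK : ℕ) (top : TT) (it : IT) (t : TT) : Bool :=
  TT.rec (motive := fun _ => Bool) true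
    (fun _ k v c _ cl cr =>
      Bool.rec (motive := fun _ => Bool) false
        (Bool.rec (motive := fun _ => Bool) false cr cl)
        (nbB v fun L => checkN DK top it k L c)) t

/-- first hit in a list of trees -/
noncomputable def findL (x : ℕ) (ts : List TT) : ℕ :=
  List.rec (motive := fun _ => ℕ) 0
    (fun t _ ih => Nat.rec (motive := fun _ => ℕ) ih (fun n _ => Nat.succ n) (find x t)) ts

/-- check that the nodes of a tree occur in a list of trees -/
noncomputable def checkU (ts : List TT) (t : TT) : Bool :=
  TT.rec (motive := fun _ => Bool) true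
    (fun _ k v _ _ cl cr =>
      Bool.rec (motive := fun _ => Bool) false
        (Bool.rec (motive := fun _ => Bool) false
          (Bool.rec (motive := fun _ => Bool) false cr cl)
          (Nat.beq (findL k ts) v))
        (Nat.ble 1 v)) t

/-- validity of the table of definitions at `g` -/
noncomputable def validF (DK g : ℕ) : Bool :=
  Bool.rec (motive := fun _ => Bool)
    (Bool.rec (motive := fun _ => Bool) false
      (Bool.rec (motive := fun _ => Bool) false
        (Bool.rec (motive := fun _ => Bool) false
          (Bool.rec (motive := fun _ => Bool) false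
            (Nat.ble (fld DK g) 206158430207)
            (Nat.beq (Nat.mod (Nat.add (Nat.mod (fld DK g) 4096)
              (Nat.add (Nat.mod (Nat.div (fld DK g) 4096) 4096)
                (Nat.mod (Nat.div (fld DK g) 16777216) 4096))) 2) (Nat.mod g 2)))
          (Nat.ble (Nat.succ (Nat.mod (fld DK g) 4096)) g))
        (Nat.ble (Nat.succ (Nat.mod (Nat.div (fld DK g) 4096) 4096)) g))
      (Nat.ble (Nat.succ (Nat.mod (Nat.div (fld DK g) 16777216) 4096)) g))
    true (Nat.beq (fld DK g) 0)

/-- all `g` in the block `64 b, ..., 64 b + n - 1` are valid (or `< 6`) -/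
noncomputable def validB (DK b : ℕ) (n : ℕ) : Bool :=
  Nat.rec (motive := fun _ => Bool) true
    (fun g ih => Bool.rec (motive := fun _ => Bool) false ih
      (Bool.rec (motive := fun _ => Bool) true (validF DK (64 * b + g))
        (Nat.ble 6 (64 * b + g)))) n

/-- all `g` below `64 n` are valid (or `< 6`) -/
noncomputable def validD (DK : ℕ) (n : ℕ) : Bool :=
  Nat.rec (motive := fun _ => Bool) true
    (fun b ih => Bool.rec (motive := fun _ => Bool) false ih (validB DK b 64)) n

end H8Alt.C3
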