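import Pool.Agent.H8.Alt.C3.Engine
import Mathlib.Algebra.BigOperators.Group.Finset.Basic
import Mathlib.Tactic.Module
import Mathlib.Tactic.Abel
import Mathlib.Tactic.Ring
import Mathlib.Tactic.NormNum

/-!
# Soundness of the checker
-/

set_option linter.unusedSimpArgs false

namespace H8Alt.C3

open Finset
open H8Alt.Super (Tr RT Sem)

/-! ### trees -/

def TT.All (P : ℕ → ℕ → ℕ → Prop) : TT → Prop
  | .lf => True
  | .nd l k v c r => P k v c ∧ l.All P ∧ r.All P

def IT.All (P : ℕ → ℕ → List ℕ → ℕ → ℕ → Prop) : IT → Prop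
  | .lf => True
  | .nd l i s args a b r => P i s args a b ∧ l.All P ∧ r.All P

theorem find_nd (x : ℕ) (l : TT) (k v c : ℕ) (r : TT) :
    find x (.nd l k v c r) = if x < k then find x l else if k < x then find x r else v := by
  have e : find x (.nd l k v c r) =
      Bool.rec (motive := fun _ => ℕ)
        (Bool.rec (motive := fun _ => ℕ) v (find x r) (Nat.ble (Nat.succ k) x)) (find x l)
        (Nat.ble (Nat.succ x) k) := rfl
  rw [e]
  by_cases h1 : x < k
  · have : Nat.ble (Nat.succ x) k = true := Nat.ble_eq_true_of_le h1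
    rw [this, if_pos h1]
  · have : Nat.ble (Nat.succ x) k = false := by
      rw [← Bool.not_eq_true, Nat.ble_eq]; exact h1
    rw [this, if_neg h1]
    by_cases h2 : k < x
    · have : Nat.ble (Nat.succ k) x = true := Nat.ble_eq_true_of_le h2
      rw [this, if_pos h2]
    · have : Nat.ble (Nat.succ k) x = false := by
        rw [← Bool.not_eq_true, Nat.ble_eq]; exact h2
      rw [this, if_neg h2]

theorem find_all {P : ℕ → ℕ → ℕ → Prop} {t : TT} (h : t.All P) {x : ℕ} (hx : find x t ≠ 0) :
    ∃ c, P x (find x t) c := by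
  induction t with
  | lf => exact absurd rfl hx
  | nd l k v c r ihl ihr =>
    rw [find_nd] at hx ⊢
    obtain ⟨h1, h2, h3⟩ := h
    split_ifs at hx ⊢ with h4 h5
    · exact ihl h2 hx
    · exact ihr h3 hx
    · have : x = k := by omega
      subst this
      exact ⟨c, h1⟩

theorem findI_nd (x : ℕ) (f : ℕ → ℕ → AC) (l : IT) (i s : ℕ) (args : List ℕ) (a b : ℕ) (r : IT) :
    findI x f (.nd l i s args a b r) =
      if x < i then findI x f l else if i < x then findI x f r else f a b := by
  have e : findI x f (.nd l i s args a b r) =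
      Bool.rec (motive := fun _ => AC)
        (Bool.rec (motive := fun _ => AC) (f a b) (findI x f r) (Nat.ble (Nat.succ i) x))
        (findI x f l) (Nat.ble (Nat.succ x) i) := rfl
  rw [e]
  by_cases h1 : x < i
  · have : Nat.ble (Nat.succ x) i = true := Nat.ble_eq_true_of_le h1
    rw [this, if_pos h1]
  · have : Nat.ble (Nat.succ x) i = false := by
      rw [← Bool.not_eq_true, Nat.ble_eq]; exact h1
    rw [this, if_neg h1]
    by_cases h2 : i < x
    · have : Nat.ble (Nat.succ i) x = true := Nat.ble_eq_true_of_le h2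
      rw [this, if_pos h2]
    · have : Nat.ble (Nat.succ i) x = false := by
        rw [← Bool.not_eq_true, Nat.ble_eq]; exact h2
      rw [this, if_neg h2]

theorem findI_all {P : ℕ → ℕ → List ℕ → ℕ → ℕ → Prop} {t : IT} (h : t.All P) {x : ℕ}
    {f : ℕ → ℕ → AC} (hx : findI x f t ≠ AC.bad) :
    ∃ s args a b, P x s args a b ∧ findI x f t = f a b := by
  induction t with
  | lf => exact absurd rfl hx
  | nd l i s args a b r ihl ihr =>
    rw [findI_nd] at hx ⊢
    obtain ⟨h1, h2, h3⟩ := h
    split_ifs at hx ⊢ with h4 h5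
    · exact ihl h2 hx
    · exact ihr h3 hx
    · have : x = i := by omega
      subst this
      exact ⟨s, args, a, b, h1, rfl⟩

/-! ### signs -/

/-- sign of a number: `-1` if it is odd -/
def sg (n : ℕ) : ℤ := if n % 2 = 1 then -1 else 1

theorem sg_xor (a b : ℕ) : sg (a ^^^ b) = sg a * sg b := by
  have h : (a ^^^ b) % 2 = (a % 2 + b % 2) % 2 := by
    have h1 : (a ^^^ b) % 2 = ((a ^^^ b) % 2 ^ 1) := by rw [pow_one]
    rw [h1, Nat.xor_mod_two_pow, pow_one]
    rcases Nat.mod_two_eq_zero_or_one a with ha | ha <;>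
      rcases Nat.mod_two_eq_zero_or_one b with hb | hb <;> rw [ha, hb] <;> rfl
  rw [sg, sg, sg, h]
  rcases Nat.mod_two_eq_zero_or_one a with ha | ha <;>
    rcases Nat.mod_two_eq_zero_or_one b with hb | hb <;> rw [ha, hb] <;> rfl

/-- parity of a word index -/
def od (g : ℕ) : Bool := decide (g % 2 = 1)

theorem and_mod2 (i j : ℕ) : (i &&& j) % 2 = (i % 2) * (j % 2) := by
  have h1 : (i &&& j) % 2 = ((i &&& j) % 2 ^ 1) := by rw [pow_one]
  rw [h1, Nat.and_mod_two_pow, pow_one]
  rcases Nat.mod_two_eq_zero_or_one i with ha | ha <;>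
    rcases Nat.mod_two_eq_zero_or_one j with hb | hb <;> rw [ha, hb] <;> rfl

theorem sg_and (i j : ℕ) : sg (i &&& j) = if (od i && od j) then (-1 : ℤ) else 1 := by
  rw [sg, and_mod2, od, od]
  rcases Nat.mod_two_eq_zero_or_one i with ha | ha <;>
    rcases Nat.mod_two_eq_zero_or_one j with hb | hb <;> rw [ha, hb] <;> simp

theorem sg_succ_and (i j : ℕ) : sg (i &&& j).succ = if (od i && od j) then (1 : ℤ) else -1 := by
  have h : (i &&& j).succ % 2 = ((i % 2) * (j % 2) + 1) % 2 := by
    rw [← and_mod2, Nat.succ_eq_add_one]; omega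
  rw [sg, h, od, od]
  rcases Nat.mod_two_eq_zero_or_one i with ha | ha <;>
    rcases Nat.mod_two_eq_zero_or_one j with hb | hb <;> rw [ha, hb] <;> simp

theorem sg_mul_self (n : ℕ) : sg n * sg n = 1 := by
  rw [sg]; split_ifs <;> norm_num

theorem sg_mod (n : ℕ) : sg (n % 2) = sg n := by
  rw [sg, sg, Nat.mod_mod]

@[simp] theorem sg_zero : sg 0 = 1 := by simp [sg]
@[simp] theorem sg_one : sg 1 = -1 := by simp [sg]

/-! ### evaluation of masks and lists -/

section
variable {S : Type*} [AddCommGroup S]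

/-- value of a mask -/
def ev (N : ℕ) (f : ℕ → S) (m : ℕ) : S := ∑ i ∈ range N, if m.testBit i then f i else 0

@[simp] theorem ev_zero (N : ℕ) (f : ℕ → S) : ev N f 0 = 0 := by simp [ev]

theorem ev_two_pow {N : ℕ} (f : ℕ → S) {i : ℕ} (h : i < N) : ev N f (2 ^ i) = f i := by
  rw [ev, sum_eq_single i]
  · simp
  · intro j _ hj
    rw [Nat.testBit_two_pow, if_neg]
    simpa using fun h => hj h.symm
  · intro h'; exact absurd (mem_range.2 h) h'

/-- value of a row -/
def er (N : ℕ) (f : ℕ → S) (P M : ℕ) : S := ev N f (P >>> 64) - ev N f (M >>> 64)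

@[simp] theorem er_zero (N : ℕ) (f : ℕ → S) : er N f 0 0 = 0 := by simp [er]

theorem er_same (N : ℕ) (f : ℕ → S) (P : ℕ) : er N f P P = 0 := by simp [er]

theorem er_swap (N : ℕ) (f : ℕ → S) (P M : ℕ) : er N f M P = - er N f P M := by
  rw [er, er, neg_sub]

theorem unitM_shift (i : ℕ) : unitM i >>> 64 = 2 ^ i := by
  rw [Nat.shiftRight_eq_div_pow]
  have e : unitM i = 2 ^ (i + 64) + (i + 1) * 11400714819323198485 % 18446744073709551616 := rfl
  have h : (18446744073709551616 : ℕ) = 2 ^ 64 := by norm_num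
  rw [e]
  have h1 : (i + 1) * 11400714819323198485 % 18446744073709551616 < 18446744073709551616 :=
    Nat.mod_lt _ (by norm_num)
  generalize (i + 1) * 11400714819323198485 % 18446744073709551616 = x at *
  rw [h] at h1
  rw [pow_add, Nat.add_comm, Nat.add_mul_div_right _ _ (by positivity),
    Nat.div_eq_of_lt h1, zero_add]

/-- value of a packed list with digit values `g` -/
noncomputable def lv (g : ℕ → S) (L : ℕ) : S :=
  if L = 0 then 0 else g (L % 8192) + lv g (L / 8192)
termination_by L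
decreasing_by omega

@[simp] theorem lv_zero (g : ℕ → S) : lv g 0 = 0 := by rw [lv, if_pos rfl]

theorem lv_ne (g : ℕ → S) {L : ℕ} (h : L ≠ 0) : lv g L = g (L % 8192) + lv g (L / 8192) := by
  rw [lv, if_neg h]

theorem lv_push (g : ℕ → S) (h0 : g 0 = 0) (x : ℕ) {a : ℕ} (ha : a < 8192) :
    lv g (x * 8192 + a) = g a + lv g x := by
  by_cases h : x * 8192 + a = 0
  · obtain rfl : x = 0 := by omega
    obtain rfl : a = 0 := by omega
    simp [h0]
  · rw [lv_ne g h]
    have e1 : (x * 8192 + a) % 8192 = a := by omega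
    have e2 : (x * 8192 + a) / 8192 = x := by omega
    rw [e1, e2]

theorem lv_single (g : ℕ → S) (h0 : g 0 = 0) {L : ℕ} (h2 : L ≤ 8191) : lv g L = g L := by
  by_cases h : L = 0
  · subst h; simp [h0]
  · rw [lv_ne g h]
    have e1 : L % 8192 = L := by omega
    have e2 : L / 8192 = 0 := by omega
    rw [e1, e2, lv_zero, add_zero]

/-- value of a signed word -/
def vw (f : ℕ → S) (a : ℕ) : S := sg a • f (a / 2)

/-! ### accumulators -/

/-- semantics of an accumulator type -/
structure AccS (α : Type) (S : Type*) [AddCommGroup S] (bn : α → (α → α) → α) (bad : α) where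
  Good : α → Prop
  V : α → S
  bad_not : ¬ Good bad
  bn_spec : ∀ x f, Good (bn x f) → Good x ∧ bn x f = f x

theorem nb_spec {α : Type} {bad : α} {Good : α → Prop} (hb : ¬ Good bad) {x : ℕ} {f : ℕ → α}
    (h : Good (nb bad x f)) : ∃ m, x = m + 1 ∧ nb bad x f = f m := by
  cases x with
  | zero => exact absurd h hb
  | succ m => exact ⟨m, rfl, rfl⟩

/-- the accumulator is advanced by `x` -/
def Adv {α : Type} {bn : α → (α → α) → α} {bad : α} (A : AccS α S bn bad) (x : S) (acc r : α) :
    Prop := A.Good acc ∧ A.V r = A.V acc + x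

section
variable {α : Type} {bn : α → (α → α) → α} {bad : α} {A : AccS α S bn bad}

theorem Adv.refl {r : α} (h : A.Good r) : Adv A 0 r r := ⟨h, by rw [add_zero]⟩

theorem Adv.trans {x y : S} {a b r : α} (h1 : Adv A x a b) (h2 : Adv A y b r) :
    Adv A (x + y) a r := ⟨h1.1, by rw [h2.2, h1.2, add_assoc]⟩

theorem loopD_sound {g : ℕ → S} {F : S → S} (hF : ∀ x y, F (x + y) = F x + F y)
    {f : ℕ → α → α}
    (hf : ∀ a acc, a < 8192 → A.Good (f a acc) → Adv A (F (g a)) acc (f a acc)) :
    ∀ fuel L acc, A.Good (loopD bn bad f fuel (L + 1) acc) →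
      Adv A (F (lv g L)) acc (loopD bn bad f fuel (L + 1) acc) := by
  have hF0 : F 0 = 0 := by
    have := hF 0 0
    rw [add_zero] at this
    exact (add_eq_left.mp this.symm)
  intro fuel
  induction fuel with
  | zero => intro L a h; exact absurd h A.bad_not
  | succ fuel ih =>
    intro L acc h
    have e : loopD bn bad f (fuel + 1) (L + 1) acc =
        Bool.rec (motive := fun _ => α)
          (nb bad (Nat.succ (Nat.mod L 8192)) fun a =>
            bn (f a acc) fun acc' => loopD bn bad f fuel (Nat.succ (Nat.div L 8192)) acc')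
          acc (Nat.beq L 0) := rfl
    rw [e] at h ⊢
    by_cases h0 : L = 0
    · subst h0
      rw [lv_zero, hF0]
      exact Adv.refl h
    · have hb : Nat.beq L 0 = false := by
        rw [← Bool.not_eq_true, Nat.beq_eq]; exact h0
      rw [hb] at h ⊢
      obtain ⟨a, ha, h1⟩ := nb_spec A.bad_not h
      have h1' : (Bool.rec (motive := fun _ => α)
          (nb bad (Nat.succ (Nat.mod L 8192)) fun a =>
            bn (f a acc) fun acc' => loopD bn bad f fuel (Nat.succ (Nat.div L 8192)) acc')
          acc false) = bn (f a acc) fun acc' =>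
            loopD bn bad f fuel (Nat.succ (Nat.div L 8192)) acc' := h1
      rw [h1'] at h ⊢
      have ha' : L % 8192 = a := Nat.succ_injective ha
      have haN : a < 8192 := by omega
      obtain ⟨h2, h3⟩ := A.bn_spec _ _ h
      rw [h3] at h ⊢
      have h4 := hf a acc haN h2
      have h5 := ih (L / 8192) (f a acc) h
      rw [lv_ne g h0, ha', hF]
      exact h4.trans h5

theorem loopR_sound {g : ℕ → S} {F : S → S} (hF : ∀ x y, F (x + y) = F x + F y)
    {f : ℕ → α → α}
    (hf : ∀ a acc, a < 8192 → A.Good (f a acc) → Adv A (F (g a)) acc (f a acc))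
    {L : ℕ} {acc : α} (h : A.Good (loopR bn bad f L acc)) :
    Adv A (F (lv g L)) acc (loopR bn bad f L acc) :=
  loopD_sound hF hf 4100 L acc h

theorem loopW_sound {f : ℕ → S} {F : S → S} (hF : ∀ x y, F (x + y) = F x + F y)
    (hZ : ∀ (k : ℤ) x, F (k • x) = k • F x) {G : ℕ → ℕ → α → α} {n : ℕ}
    (hf : ∀ i n' acc, i < 4096 → A.Good (G i n' acc) → Adv A (sg n' • F (f i)) acc (G i n' acc))
    {L : ℕ} {acc : α} (h : A.Good (loopW bn bad G n L acc)) :
    Adv A (sg n • F (lv (vw f) L)) acc (loopW bn bad G n L acc) := by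
  refine loopR_sound (g := vw f) (F := fun x => sg n • F x)
    (fun x y => by rw [hF, smul_add]) ?_ h
  intro a acc' ha h'
  obtain ⟨i, hi, h1⟩ := nb_spec A.bad_not h'
  rw [h1] at h' ⊢
  obtain ⟨n', hn, h2⟩ := nb_spec A.bad_not h'
  rw [h2] at h' ⊢
  have hi' : a / 2 = i := Nat.succ_injective hi
  have hn' : n ^^^ a = n' := Nat.succ_injective hn
  have h3 := hf i n' acc' (by omega) h'
  rw [← hn', sg_xor, mul_smul] at h3
  rw [vw, hZ, hi', ← hn']
  exact h3

end

/-! ### the two accumulators -/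

/-- lists -/
noncomputable def accL (f : ℕ → S) : AccS ℕ S bnN 0 where
  Good a := a ≠ 0
  V a := lv (vw f) (a - 1)
  bad_not h := h rfl
  bn_spec x g h := by
    cases x with
    | zero => exact absurd rfl h
    | succ m => exact ⟨Nat.succ_ne_zero m, rfl⟩

/-- value of a row accumulator -/
def acV (N : ℕ) (k : ℕ → S) : AC → S
  | .bad => 0
  | .mk P M => er N k P M

/-- rows -/
noncomputable def accR (N : ℕ) (k : ℕ → S) : AccS AC S bnA AC.bad where
  Good a := a ≠ AC.bad
  V := acV N k
  bad_not h := h rfl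
  bn_spec x g h := by
    cases x with
    | bad => exact absurd rfl h
    | mk P M => exact ⟨by simp, rfl⟩

theorem xor_bit_lt {a s : ℕ} (ha : a < 8192) (hs : s < 2) : a ^^^ s < 8192 :=
  Nat.xor_lt_two_pow (n := 13) ha (by omega)

theorem xor_bit_div {a s : ℕ} (hs : s < 2) : (a ^^^ s) / 2 = a / 2 := by
  have h1 : (a ^^^ s) / 2 = (a ^^^ s) / 2 ^ 1 := by rw [pow_one]
  have h2 : s / 2 = 0 := by omega
  rw [h1, Nat.xor_div_two_pow, pow_one, h2, Nat.xor_zero]

theorem vw_zero {f : ℕ → S} (h0 : f 0 = 0) : vw f 0 = 0 := by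
  rw [vw, Nat.zero_div, h0, smul_zero]

theorem pushL_sound {f : ℕ → S} (h0 : f 0 = 0) {v n acc : ℕ} (h : (accL f).Good (pushL v n acc)) :
    ∃ L, v = L + 1 ∧ Adv (accL f) (sg n • lv (vw f) L) acc (pushL v n acc) := by
  have e : pushL v n acc = nb 0 v fun L => nb 0 (Nat.succ (Nat.mod n 2)) fun s =>
    loopR bnN 0 (fun a b => nb 0 b fun x =>
      Nat.succ (Nat.add (Nat.mul x 8192) (Nat.xor a s))) L acc := rfl
  rw [e] at h ⊢
  obtain ⟨L, hL, h1⟩ := nb_spec (accL f).bad_not h
  rw [h1] at h ⊢
  obtain ⟨s, hs, h2⟩ := nb_spec (accL f).bad_not h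
  rw [h2] at h ⊢
  have hs' : n % 2 = s := Nat.succ_injective hs
  refine ⟨L, hL, loopR_sound (g := vw f) (F := fun x => sg n • x)
    (fun x y => smul_add _ _ _) ?_ h⟩
  intro a acc' ha h'
  obtain ⟨x, hx, h3⟩ := nb_spec (accL f).bad_not h'
  rw [h3] at h' ⊢
  subst hx
  refine ⟨Nat.succ_ne_zero x, ?_⟩
  change lv (vw f) (x * 8192 + (a ^^^ s)) = lv (vw f) x + sg n • vw f a
  have hs2 : s < 2 := by omega
  rw [lv_push _ (vw_zero h0) x (xor_bit_lt ha hs2), vw, vw, xor_bit_div hs2, sg_xor, ← hs', sg_mod,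
    smul_smul, mul_comm, add_comm]

/-! ### rows -/

theorem er_eq (N : ℕ) (f : ℕ → S) (P M : ℕ) : er N f P M =
    ∑ i ∈ range N, ((if P.testBit (64 + i) then f i else 0) -
      (if M.testBit (64 + i) then f i else 0)) := by
  rw [er, ev, ev, ← sum_sub_distrib]
  simp only [Nat.testBit_shiftRight]

variable (h3 : ∀ x : S, (3 : ℤ) • x = 0)
include h3

theorem er_addR (N : ℕ) (f : ℕ → S) (a b p q : ℕ) :
    er N f (p ^^^ ((a ^^^ b) &&& (a ^^^ q)))
      ((b ^^^ (a ^^^ q)) ^^^ ((a ^^^ p) &&& ((a ^^^ b) &&& (a ^^^ q)))) =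
      er N f a b + er N f p q := by
  rw [er_eq, er_eq, er_eq, ← sum_add_distrib]
  apply sum_congr rfl
  intro i _
  simp only [Nat.testBit_xor, Nat.testBit_land]
  have h := h3 (f i)
  cases a.testBit (64 + i) <;> cases b.testBit (64 + i) <;> cases p.testBit (64 + i) <;>
    cases q.testBit (64 + i) <;> simp only [Bool.xor_false, Bool.xor_true, Bool.and_false,
      Bool.and_true, Bool.not_true, Bool.not_false, Bool.false_and, Bool.true_and,
      Bool.false_xor, Bool.true_xor, if_true, if_false, Bool.false_eq_true, reduceIte] <;>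
    first
      | module
      | linear_combination (norm := module) h
      | linear_combination (norm := module) -h

theorem er_addU (N : ℕ) (f : ℕ → S) (a b u : ℕ) :
    er N f (u ^^^ (a ^^^ (a &&& b)))
      ((b ^^^ (a &&& b)) ^^^ ((a ^^^ (a &&& b)) &&& u)) =
      er N f a b + ev N f (u >>> 64) := by
  have e1 : ev N f (u >>> 64) = er N f u 0 := by
    rw [er, Nat.zero_shiftRight, ev_zero, sub_zero]
  rw [e1, er_eq, er_eq, er_eq, ← sum_add_distrib]
  apply sum_congr rfl
  intro i _
  simp only [Nat.testBit_xor, Nat.testBit_land, Nat.zero_testBit]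
  have h := h3 (f i)
  cases a.testBit (64 + i) <;> cases b.testBit (64 + i) <;> cases u.testBit (64 + i) <;>
    simp only [Bool.xor_false, Bool.xor_true, Bool.and_false,
      Bool.and_true, Bool.not_true, Bool.not_false, Bool.false_and, Bool.true_and,
      Bool.false_xor, Bool.true_xor, if_true, if_false, Bool.false_eq_true, reduceIte] <;>
    first
      | module
      | linear_combination (norm := module) h
      | linear_combination (norm := module) -h

omit h3 in
theorem er_norm (N : ℕ) (f : ℕ → S) (a b : ℕ) :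
    er N f (a &&& (a ^^^ b)) (b &&& (a ^^^ b)) = er N f a b := by
  rw [er_eq, er_eq]
  apply sum_congr rfl
  intro i _
  simp only [Nat.testBit_xor, Nat.testBit_land]
  cases a.testBit (64 + i) <;> cases b.testBit (64 + i) <;> simp

theorem addR_sound (N : ℕ) (f : ℕ → S) (a b p q : ℕ) : ∃ P M, addR a b p q = AC.mk P M ∧
    er N f P M = er N f a b + er N f p q :=
  ⟨_, _, rfl, er_addR h3 N f a b p q⟩

theorem addU_sound (N : ℕ) (f : ℕ → S) (a b u : ℕ) (F : ℕ → ℕ → AC) :
    ∃ P M, addU a b u F = F P M ∧ er N f P M = er N f a b + ev N f (u >>> 64) :=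
  ⟨_, _, rfl, er_addU h3 N f a b u⟩

theorem pushA_sound {M : ℕ} {k : ℕ → S} {v n : ℕ} {acc : AC} (hv : v ≤ M)
    (h : (accR M k).Good (pushA v n acc)) :
    ∃ i, v = i + 1 ∧ Adv (accR M k) (sg n • k i) acc (pushA v n acc) := by
  have e : pushA v n acc = nb AC.bad v fun i =>
    AC.rec (motive := fun _ => AC) AC.bad (fun a b =>
      Bool.rec (motive := fun _ => AC)
        (addU b a (unitM i) fun P M => AC.mk M P)
        (addU a b (unitM i) fun P M => AC.mk P M)
        (Nat.beq (Nat.mod n 2) 0)) acc := rfl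
  rw [e] at h ⊢
  obtain ⟨i, hi, h1⟩ := nb_spec (accR M k).bad_not h
  rw [h1] at h ⊢
  refine ⟨i, hi, ?_⟩
  cases acc with
  | bad => exact absurd rfl h
  | mk a b =>
    refine ⟨by simp [accR], ?_⟩
    have e2 : (AC.rec (motive := fun _ => AC) AC.bad (fun a b =>
      Bool.rec (motive := fun _ => AC)
        (addU b a (unitM i) fun P M => AC.mk M P)
        (addU a b (unitM i) fun P M => AC.mk P M)
        (Nat.beq (Nat.mod n 2) 0)) (AC.mk a b)) =
      Bool.rec (motive := fun _ => AC)
        (addU b a (unitM i) fun P M => AC.mk M P)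
        (addU a b (unitM i) fun P M => AC.mk P M)
        (Nat.beq (Nat.mod n 2) 0) := rfl
    rw [e2]
    by_cases hn : n % 2 = 0
    · have hb : Nat.beq (Nat.mod n 2) 0 = true := by rw [Nat.beq_eq]; exact hn
      rw [hb]
      obtain ⟨P, Q, h4, h5⟩ := addU_sound h3 M k a b (unitM i) (fun P M => AC.mk P M)
      have hs : sg n = 1 := by rw [sg, if_neg (by omega)]
      change acV M k (addU a b (unitM i) fun P M => AC.mk P M) = acV M k (AC.mk a b) + _
      rw [h4, acV, acV, h5, unitM_shift, ev_two_pow k (by omega), hs, one_smul]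
    · have hb : Nat.beq (Nat.mod n 2) 0 = false := by
        rw [← Bool.not_eq_true, Nat.beq_eq]; exact hn
      rw [hb]
      obtain ⟨P, Q, h4, h5⟩ := addU_sound h3 M k b a (unitM i) (fun P M => AC.mk M P)
      have hs : sg n = -1 := by rw [sg, if_pos (by omega)]
      change acV M k (addU b a (unitM i) fun P M => AC.mk M P) = acV M k (AC.mk a b) + _
      rw [h4, acV, acV, er_swap M k P Q, h5, unitM_shift, ev_two_pow k (by omega), hs,
        er_swap M k a b, neg_smul, one_smul]
      abel

end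

end H8Alt.C3
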