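import Pool.Agent.H8.Alt.C3.Sound

/-!
# Soundness of the checker, II
-/

namespace H8Alt.C3

open Finset
open H8Alt.Super (Tr RT Sem)

set_option linter.unusedSectionVars false

section
variable {S : Type*} [AddCommGroup S] (M : Sem S)

/-- value of a symbol -/
def symval (f : ℕ → S) (k : ℕ) : S :=
  if k / 68719476736 = 1 ∧ k % 4096 = 0 then
    M.com (f (k / 16777216 % 4096)) (f (k / 4096 % 4096))
  else if k / 68719476736 = 2 then
    M.ass (f (k / 16777216 % 4096)) (f (k / 4096 % 4096)) (f (k % 4096))
  else if k / 68719476736 = 3 then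
    M.jor (f (k / 16777216 % 4096)) (f (k / 4096 % 4096))
  else 0

/-- condition on a definition -/
def DefOK (K g : ℕ) : Prop :=
  K / 16777216 % 4096 < g ∧ K / 4096 % 4096 < g ∧ K % 4096 < g ∧
    (K % 4096 + (K / 4096 % 4096 + K / 16777216 % 4096)) % 2 = g % 2

instance (K g : ℕ) : Decidable (DefOK K g) := by unfold DefOK; infer_instance

/-- values of basis words -/
noncomputable def val (DK : ℕ) (gen : ℕ → S) (g : ℕ) : S :=
  if g < 6 then gen g
  else
    if h : DefOK (fld DK g) g then
      if fld DK g / 68719476736 = 1 ∧ fld DK g % 4096 = 0 then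
        M.com (val DK gen (fld DK g / 16777216 % 4096)) (val DK gen (fld DK g / 4096 % 4096))
      else if fld DK g / 68719476736 = 2 then
        M.ass (val DK gen (fld DK g / 16777216 % 4096)) (val DK gen (fld DK g / 4096 % 4096))
          (val DK gen (fld DK g % 4096))
      else 0
    else 0
termination_by g
decreasing_by
  all_goals first | exact h.1 | exact h.2.1 | exact h.2.2.1

theorem val_gen (DK : ℕ) (gen : ℕ → S) {g : ℕ} (h : g < 6) : val M DK gen g = gen g := by
  rw [val, if_pos h]

theorem od_sum {i j l g : ℕ} (h : (l + (j + i)) % 2 = g % 2) :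
    xor (od i) (xor (od j) (od l)) = od g := by
  rw [od, od, od, od, ← h]
  rcases Nat.mod_two_eq_zero_or_one i with h1 | h1 <;>
    rcases Nat.mod_two_eq_zero_or_one j with h2 | h2 <;>
    rcases Nat.mod_two_eq_zero_or_one l with h3 | h3 <;>
    simp [Nat.add_mod, h1, h2, h3]

theorem val_mem (DK : ℕ) {gen : ℕ → S} (hg : ∀ i, i < 6 → gen i ∈ M.H (od i)) (g : ℕ) :
    val M DK gen g ∈ M.H (od g) := by
  induction g using Nat.strong_induction_on with
  | _ g ih =>
    rw [val]
    split_ifs with h1 h2 h3 h4
    · exact hg g h1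
    · have h5 := M.com_mem (ih _ h2.1) (ih _ h2.2.1)
      have h6 := od_sum h2.2.2.2
      rw [h3.2] at h6
      have h7 : od 0 = false := by simp [od]
      rw [h7, Bool.xor_false] at h6
      rwa [h6] at h5
    · have h5 := M.ass_mem (ih _ h2.1) (ih _ h2.2.1) (ih _ h2.2.2.1)
      rwa [od_sum h2.2.2.2] at h5
    · exact AddSubgroup.zero_mem _
    · exact AddSubgroup.zero_mem _

theorem validF_sound {DK g : ℕ} (h : validF DK g = true) :
    fld DK g = 0 ∨ (DefOK (fld DK g) g ∧ fld DK g ≤ 206158430207) := by
  have e : validF DK g = Bool.rec (motive := fun _ => Bool)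
    (Bool.rec (motive := fun _ => Bool) false
      (Bool.rec (motive := fun _ => Bool) false
        (Bool.rec (motive := fun _ => Bool) false
          (Bool.rec (motive := fun _ => Bool) false
            (Nat.ble (fld DK g) 206158430207)
            (Nat.beq (Nat.mod (Nat.add (Nat.mod (fld DK g) 4096)
              (Nat.add (Nat.mod (Nat.div (fld DK g) 4096) 4096)
                (Nat.mod (Nat.div (fld DK g) 16777216) 4096))) 2) (Nat.mod g 2)))
          (Nat.ble (Nat.succ (Nat.mod (fld DK g) 4096)) g))
        (Nat.ble (Nat.succ (Nat.mod (Nat.div (fld DK g) 4096) 4096)) g))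
      (Nat.ble (Nat.succ (Nat.mod (Nat.div (fld DK g) 16777216) 4096)) g))
    true (Nat.beq (fld DK g) 0) := rfl
  rw [e] at h
  by_cases h0 : Nat.beq (fld DK g) 0 = true
  · exact Or.inl (Nat.eq_of_beq_eq_true h0)
  · right
    rw [Bool.not_eq_true] at h0
    rw [h0] at h
    by_cases h1 : Nat.ble (Nat.succ (Nat.mod (Nat.div (fld DK g) 16777216) 4096)) g = true
    · rw [h1] at h
      by_cases h2 : Nat.ble (Nat.succ (Nat.mod (Nat.div (fld DK g) 4096) 4096)) g = true
      · rw [h2] at h
        by_cases h3 : Nat.ble (Nat.succ (Nat.mod (fld DK g) 4096)) g = true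
        · rw [h3] at h
          by_cases h4 : Nat.beq (Nat.mod (Nat.add (Nat.mod (fld DK g) 4096)
              (Nat.add (Nat.mod (Nat.div (fld DK g) 4096) 4096)
                (Nat.mod (Nat.div (fld DK g) 16777216) 4096))) 2) (Nat.mod g 2) = true
          · rw [h4] at h
            exact ⟨⟨Nat.le_of_ble_eq_true h1, Nat.le_of_ble_eq_true h2,
              Nat.le_of_ble_eq_true h3, Nat.eq_of_beq_eq_true h4⟩, Nat.le_of_ble_eq_true h⟩
          · rw [Bool.not_eq_true] at h4
            rw [h4] at h; exact absurd h (by simp)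
        · rw [Bool.not_eq_true] at h3
          rw [h3] at h; exact absurd h (by simp)
      · rw [Bool.not_eq_true] at h2
        rw [h2] at h; exact absurd h (by simp)
    · rw [Bool.not_eq_true] at h1
      rw [h1] at h; exact absurd h (by simp)

theorem validB_sound {DK b n : ℕ} (h : validB DK b n = true) :
    ∀ g, g < n → 6 ≤ 64 * b + g → validF DK (64 * b + g) = true := by
  induction n with
  | zero => intro g hg; exact absurd hg (by omega)
  | succ n ih =>
    have e : validB DK b (n + 1) = Bool.rec (motive := fun _ => Bool) false (validB DK b n)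
      (Bool.rec (motive := fun _ => Bool) true (validF DK (64 * b + n))
        (Nat.ble 6 (64 * b + n))) := rfl
    rw [e] at h
    intro g hg h6
    by_cases h1 : Nat.ble 6 (64 * b + n) = true
    · rw [h1] at h
      by_cases h2 : validF DK (64 * b + n) = true
      · rw [h2] at h
        rcases Nat.lt_succ_iff_lt_or_eq.1 hg with h3 | h3
        · exact ih h g h3 h6
        · rw [h3]; exact h2
      · rw [Bool.not_eq_true] at h2
        rw [h2] at h; exact absurd h (by simp)
    · have : ¬ 6 ≤ 64 * b + n := fun h' => h1 (Nat.ble_eq_true_of_le h')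
      omega

theorem validD_sound {DK n : ℕ} (h : validD DK n = true) :
    ∀ g, 6 ≤ g → g < 64 * n → validF DK g = true := by
  induction n with
  | zero => intro g _ hg; exact absurd hg (by omega)
  | succ n ih =>
    have e : validD DK (n + 1) =
      Bool.rec (motive := fun _ => Bool) false (validD DK n) (validB DK n 64) := rfl
    rw [e] at h
    intro g h6 hg
    by_cases h2 : validB DK n 64 = true
    · rw [h2] at h
      by_cases h3 : g < 64 * n
      · exact ih h g h6 h3
      · have h4 := validB_sound h2 (g - 64 * n) (by omega) (by omega)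
        have h5 : 64 * n + (g - 64 * n) = g := by omega
        rwa [h5] at h4
    · rw [Bool.not_eq_true] at h2
      rw [h2] at h; exact absurd h (by simp)

theorem val_def {DK : ℕ} (gen : ℕ → S) {g : ℕ} (h6 : 6 ≤ g) (h : validF DK g = true) :
    val M DK gen g = symval M (val M DK gen) (fld DK g) := by
  rw [val, if_neg (by omega), symval]
  rcases validF_sound h with h0 | ⟨h1, h4⟩
  · rw [h0]
    simp
  · rw [dif_pos h1]
    split_ifs with h5 h6 h7
    · rfl
    · rfl
    · omega
    · rfl

theorem symval_pk2 (f : ℕ → S) {i j : ℕ} (hi : i < 4096) (hj : j < 4096) :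
    symval M f (pk2 i j) = M.com (f i) (f j) := by
  have e1 : pk2 i j / 68719476736 = 1 ∧ pk2 i j % 4096 = 0 := by rw [pk2]; omega
  have e2 : pk2 i j / 16777216 % 4096 = i := by rw [pk2]; omega
  have e3 : pk2 i j / 4096 % 4096 = j := by rw [pk2]; omega
  rw [symval, if_pos e1, e2, e3]

theorem symval_pk3 (f : ℕ → S) {i j l : ℕ} (hi : i < 4096) (hj : j < 4096) (hl : l < 4096) :
    symval M f (pk3 i j l) = M.ass (f i) (f j) (f l) := by
  have e0 : ¬ (pk3 i j l / 68719476736 = 1 ∧ pk3 i j l % 4096 = 0) := by rw [pk3]; omega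
  have e1 : pk3 i j l / 68719476736 = 2 := by rw [pk3]; omega
  have e2 : pk3 i j l / 16777216 % 4096 = i := by rw [pk3]; omega
  have e3 : pk3 i j l / 4096 % 4096 = j := by rw [pk3]; omega
  have e4 : pk3 i j l % 4096 = l := by rw [pk3]; omega
  rw [symval, if_neg e0, if_pos e1, e2, e3, e4]

theorem symval_pkj (f : ℕ → S) {i j : ℕ} (hi : i < 4096) (hj : j < 4096) :
    symval M f (pkj i j) = M.jor (f i) (f j) := by
  have e0 : ¬ (pkj i j / 68719476736 = 1 ∧ pkj i j % 4096 = 0) := by rw [pkj]; omega
  have e1 : ¬ pkj i j / 68719476736 = 2 := by rw [pkj]; omega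
  have e5 : pkj i j / 68719476736 = 3 := by rw [pkj]; omega
  have e2 : pkj i j / 16777216 % 4096 = i := by rw [pkj]; omega
  have e3 : pkj i j / 4096 % 4096 = j := by rw [pkj]; omega
  rw [symval, if_neg e0, if_neg e1, if_pos e5, e2, e3]

/-! ### products of words -/

variable {α : Type} {bn : α → (α → α) → α} {bad : α} {A : AccS α S bn bad}

/-- semantics of a push function on a tree: looking up the key `x` advances by its value -/
def GoodP (f : ℕ → S) (A : AccS α S bn bad) (psh : ℕ → ℕ → α → α) (t : TT) : Prop :=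
  ∀ x n acc, A.Good (psh (find x t) n acc) →
    Adv A (sg n • symval M f x) acc (psh (find x t) n acc)

variable {M} {f : ℕ → S} {psh : ℕ → ℕ → α → α} {t : TT} (hg : GoodP M f A psh t)
include hg

theorem look_sound {x n : ℕ} {acc : α} (h : A.Good (look bad psh t x n acc)) :
    Adv A (sg n • symval M f x) acc (look bad psh t x n acc) := hg x n acc h

variable (h3 : ∀ x : S, (3 : ℤ) • x = 0) (hf : ∀ g, f g ∈ M.H (od g))
include h3 hf

omit hg hf in
theorem zero_of_neg {x : S} (h : x = (-1 : ℤ) • x) : x = 0 := by
  have h1 := h3 x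
  have h2 : x = (3 : ℤ) • x + ((-1 : ℤ) • x - x) := by module
  rw [h2, h1, ← h, sub_self, add_zero]

omit hg in
theorem com_s (i j : ℕ) : M.com (f i) (f j) = sg (j &&& i).succ • M.com (f j) (f i) := by
  rw [sg_succ_and, M.com_swap (hf j) (hf i)]

omit hg in
theorem ass_s12 (i j : ℕ) (w : S) :
    M.ass (f i) (f j) w = sg (j &&& i).succ • M.ass (f j) (f i) w := by
  rw [sg_succ_and, M.ass_swap12 w (hf j) (hf i)]

omit hg in
theorem ass_s23 (w : S) (i j : ℕ) :
    M.ass w (f i) (f j) = sg (j &&& i).succ • M.ass w (f j) (f i) := by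
  rw [sg_succ_and, M.ass_swap23 w (hf j) (hf i)]

omit hg in
theorem jor_s (i j : ℕ) : M.jor (f i) (f j) = sg (j &&& i) • M.jor (f j) (f i) := by
  rw [sg_and, M.jor_swap (hf j) (hf i)]

omit hg hf in
theorem od_even {i : ℕ} (h : i % 2 = 0) : od i = false := by
  rw [od, h]; rfl

omit hg hf in
theorem od_odd {i : ℕ} (h : i % 2 ≠ 0) : od i = true := by
  have : i % 2 = 1 := by omega
  rw [od, this]; rfl

omit hg in
theorem com_z {i : ℕ} (h : i % 2 = 0) : M.com (f i) (f i) = 0 := by
  apply zero_of_neg h3
  have h1 := M.com_swap (hf i) (hf i)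
  rw [od_even h3 h] at h1
  exact h1

omit hg in
theorem ass_z12 {i : ℕ} (h : i % 2 = 0) (w : S) : M.ass (f i) (f i) w = 0 := by
  apply zero_of_neg h3
  have h1 := M.ass_swap12 w (hf i) (hf i)
  rw [od_even h3 h] at h1
  exact h1

omit hg in
theorem ass_z23 {i : ℕ} (h : i % 2 = 0) (w : S) : M.ass w (f i) (f i) = 0 := by
  apply zero_of_neg h3
  have h1 := M.ass_swap23 w (hf i) (hf i)
  rw [od_even h3 h] at h1
  exact h1

omit hg in
theorem jor_z {i : ℕ} (h : i % 2 ≠ 0) : M.jor (f i) (f i) = 0 := by
  apply zero_of_neg h3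
  have h1 := M.jor_swap (hf i) (hf i)
  rw [od_odd h3 h] at h1
  exact h1

omit h3 hf hg in
/-- case distinction on a comparison -/
theorem brec {P : α → Prop} {b : Bool} {x y : α} (h1 : b = false → P x) (h2 : b = true → P y) :
    P (Bool.rec (motive := fun _ => α) x y b) := by
  cases b with
  | false => exact h1 rfl
  | true => exact h2 rfl

omit h3 hf hg in
theorem ble_f {a b : ℕ} (h : Nat.ble a b = false) : b < a := by
  by_contra h'
  rw [Nat.ble_eq_true_of_le (by omega)] at h
  exact absurd h (by simp)

omit h3 hf hg in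
theorem beq_f {a b : ℕ} (h : Nat.beq a b = false) : a ≠ b := by
  intro h'
  rw [← Bool.not_eq_true, Nat.beq_eq] at h
  exact h h'

theorem t2_sound {i j n : ℕ} {acc : α} (hi : i < 4096) (hj : j < 4096) :
    A.Good (t2 bad psh t i j n acc) →
      Adv A (sg n • M.com (f i) (f j)) acc (t2 bad psh t i j n acc) := by
  unfold t2
  apply brec (P := fun r => A.Good r → Adv A (sg n • M.com (f i) (f j)) acc r)
  · intro _
    apply brec (P := fun r => A.Good r → Adv A (sg n • M.com (f i) (f j)) acc r)
    · intro _ h
      have := look_sound hg h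
      rwa [symval_pk2 M f hi hj] at this
    · intro _ h
      have := look_sound hg h
      rw [symval_pk2 M f hj hi] at this
      rw [com_s h3 hf, smul_smul, ← sg_xor, Nat.land_comm]
      exact this
  · intro hb
    have hij : i = j := Nat.eq_of_beq_eq_true hb
    apply brec (P := fun r => A.Good r → Adv A (sg n • M.com (f i) (f j)) acc r)
    · intro _ h
      have := look_sound hg h
      rwa [symval_pk2 M f hi hj] at this
    · intro hb h
      rw [← hij, com_z h3 hf (Nat.eq_of_beq_eq_true hb), smul_zero]
      exact Adv.refl h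

theorem tj_sound {i j n : ℕ} {acc : α} (hi : i < 4096) (hj : j < 4096) :
    A.Good (tj bad psh t i j n acc) →
      Adv A (sg n • M.jor (f i) (f j)) acc (tj bad psh t i j n acc) := by
  unfold tj
  apply brec (P := fun r => A.Good r → Adv A (sg n • M.jor (f i) (f j)) acc r)
  · intro _
    apply brec (P := fun r => A.Good r → Adv A (sg n • M.jor (f i) (f j)) acc r)
    · intro _ h
      have := look_sound hg h
      rwa [symval_pkj M f hi hj] at this
    · intro _ h
      have := look_sound hg h
      rw [symval_pkj M f hj hi] at this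
      rw [jor_s h3 hf, smul_smul, ← sg_xor, Nat.land_comm]
      exact this
  · intro hb
    have hij : i = j := Nat.eq_of_beq_eq_true hb
    apply brec (P := fun r => A.Good r → Adv A (sg n • M.jor (f i) (f j)) acc r)
    · intro hb h
      rw [← hij, jor_z h3 hf (beq_f hb), smul_zero]
      exact Adv.refl h
    · intro _ h
      have := look_sound hg h
      rwa [symval_pkj M f hi hj] at this

theorem t3f_sound {i j l n : ℕ} {acc : α} (hi : i < 4096) (hj : j < 4096) (hl : l < 4096) :
    A.Good (t3f bad psh t i j l n acc) →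
      Adv A (sg n • M.ass (f i) (f j) (f l)) acc (t3f bad psh t i j l n acc) := by
  have hlook : A.Good (look bad psh t (pk3 i j l) n acc) →
      Adv A (sg n • M.ass (f i) (f j) (f l)) acc (look bad psh t (pk3 i j l) n acc) := by
    intro h
    have := look_sound hg h
    rwa [symval_pk3 M f hi hj hl] at this
  unfold t3f
  apply brec (P := fun r => A.Good r → Adv A (sg n • M.ass (f i) (f j) (f l)) acc r)
  · intro _
    apply brec (P := fun r => A.Good r → Adv A (sg n • M.ass (f i) (f j) (f l)) acc r)
    · intro _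
      exact hlook
    · intro hb
      apply brec (P := fun r => A.Good r → Adv A (sg n • M.ass (f i) (f j) (f l)) acc r)
      · intro _
        exact hlook
      · intro hb' h
        have hjl : j = l := Nat.eq_of_beq_eq_true hb
        rw [← hjl, ass_z23 h3 hf (Nat.eq_of_beq_eq_true hb'), smul_zero]
        exact Adv.refl h
  · intro hb
    apply brec (P := fun r => A.Good r → Adv A (sg n • M.ass (f i) (f j) (f l)) acc r)
    · intro _
      exact hlook
    · intro hb' h
      have hij : i = j := Nat.eq_of_beq_eq_true hb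
      rw [← hij, ass_z12 h3 hf (Nat.eq_of_beq_eq_true hb'), smul_zero]
      exact Adv.refl h

theorem t3s_sound {i j l n : ℕ} {acc : α} (hi : i < 4096) (hj : j < 4096) (hl : l < 4096) :
    A.Good (t3s bad psh t i j l n acc) →
      Adv A (sg n • M.ass (f i) (f j) (f l)) acc (t3s bad psh t i j l n acc) := by
  unfold t3s
  apply brec (P := fun r => A.Good r → Adv A (sg n • M.ass (f i) (f j) (f l)) acc r)
  · intro _
    exact t3f_sound hg h3 hf hi hj hl
  · intro _
    apply brec (P := fun r => A.Good r → Adv A (sg n • M.ass (f i) (f j) (f l)) acc r)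
    · intro _ h
      have := t3f_sound hg h3 hf hi hl hj h
      rw [ass_s23 h3 hf, smul_smul, ← sg_xor, Nat.land_comm]
      exact this
    · intro _ h
      have := t3f_sound hg h3 hf hl hi hj h
      rw [ass_s23 h3 hf, ass_s12 h3 hf, smul_smul, ← sg_xor, smul_smul, ← sg_xor,
        Nat.land_comm l j, Nat.land_comm l i]
      exact this

theorem t3_sound {i j l n : ℕ} {acc : α} (hi : i < 4096) (hj : j < 4096) (hl : l < 4096) :
    A.Good (t3 bad psh t i j l n acc) →
      Adv A (sg n • M.ass (f i) (f j) (f l)) acc (t3 bad psh t i j l n acc) := by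
  unfold t3
  apply brec (P := fun r => A.Good r → Adv A (sg n • M.ass (f i) (f j) (f l)) acc r)
  · intro _
    exact t3s_sound hg h3 hf hi hj hl
  · intro _ h
    have := t3s_sound hg h3 hf hj hi hl h
    rw [ass_s12 h3 hf, smul_smul, ← sg_xor, Nat.land_comm]
    exact this

theorem b2_sound {L1 L2 n : ℕ} {acc : α} (h : A.Good (b2 bn bad psh t L1 L2 n acc)) :
    Adv A (sg n • M.com (lv (vw f) L1) (lv (vw f) L2)) acc (b2 bn bad psh t L1 L2 n acc) := by
  refine loopW_sound (F := fun x => M.com x (lv (vw f) L2)) (fun x y => by simp) (fun k x => by simp)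
    ?_ h
  intro i n1 a1 hi h1
  refine loopW_sound (F := fun x => M.com (f i) x) (fun x y => by simp) (fun k x => by simp) ?_ h1
  intro j n2 a2 hj h2
  exact t2_sound hg h3 hf hi hj h2

theorem bj_sound {L1 L2 n : ℕ} {acc : α} (h : A.Good (bj bn bad psh t L1 L2 n acc)) :
    Adv A (sg n • M.jor (lv (vw f) L1) (lv (vw f) L2)) acc (bj bn bad psh t L1 L2 n acc) := by
  refine loopW_sound (F := fun x => M.jor x (lv (vw f) L2)) (fun x y => by simp) (fun k x => by simp)
    ?_ h
  intro i n1 a1 hi h1
  refine loopW_sound (F := fun x => M.jor (f i) x) (fun x y => by simp) (fun k x => by simp) ?_ h1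
  intro j n2 a2 hj h2
  exact tj_sound hg h3 hf hi hj h2

theorem b3_sound {L1 L2 L3 n : ℕ} {acc : α} (h : A.Good (b3 bn bad psh t L1 L2 L3 n acc)) :
    Adv A (sg n • M.ass (lv (vw f) L1) (lv (vw f) L2) (lv (vw f) L3)) acc
      (b3 bn bad psh t L1 L2 L3 n acc) := by
  refine loopW_sound (F := fun x => M.ass x (lv (vw f) L2) (lv (vw f) L3)) (fun x y => by simp)
    (fun k x => by simp) ?_ h
  intro i n1 a1 hi h1
  refine loopW_sound (F := fun x => M.ass (f i) x (lv (vw f) L3)) (fun x y => by simp)
    (fun k x => by simp) ?_ h1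
  intro j n2 a2 hj h2
  refine loopW_sound (F := fun x => M.ass (f i) (f j) x) (fun x y => by simp)
    (fun k x => by simp) ?_ h2
  intro l n3 a3 hl h3'
  exact t3_sound hg h3 hf hi hj hl h3'

end

end H8Alt.C3
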