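import Pool.Agent.H8.Alt.C3.Sound2

/-!
# Soundness of the checker, III
-/

namespace H8Alt.C3

open Finset
open H8Alt.Super (Tr RT Sem)

set_option linter.unusedSectionVars false

theorem bool2 {a b : Bool} (h : Bool.rec (motive := fun _ => Bool) false a b = true) :
    b = true ∧ a = true := by
  cases b with
  | false => exact absurd h (by simp)
  | true => exact ⟨rfl, h⟩

theorem nbB_eq {x : ℕ} {f : ℕ → Bool} (h : nbB x f = true) : ∃ m, x = m + 1 ∧ f m = true := by
  cases x with
  | zero => exact absurd h (by simp [nbB])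
  | succ m => exact ⟨m, rfl, h⟩

theorem parA_testBit (l : List ℕ) (i : ℕ) : (parA l).testBit i = od (getA l i) := by
  induction l generalizing i with
  | nil =>
    have e1 : parA [] = 0 := rfl
    have e2 : getA [] i = 0 := rfl
    rw [e1, e2, Nat.zero_testBit]; rfl
  | cons x l ih =>
    have e1 : parA (x :: l) = x % 2 + 2 * parA l := rfl
    cases i with
    | zero =>
      have e2 : getA (x :: l) 0 = x := rfl
      rw [e1, e2, Nat.testBit_zero, od]
      have : (x % 2 + 2 * parA l) % 2 = x % 2 := by omega
      rw [this]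
    | succ i =>
      have e2 : getA (x :: l) (i + 1) = getA l i := rfl
      rw [e1, e2, Nat.testBit_succ, ← ih i]
      have : (x % 2 + 2 * parA l) / 2 = parA l := by omega
      rw [this]

section
variable {S : Type*} [AddCommGroup S] (M : Sem S)

/-- value of an engine schema -/
def evE (x : ℕ → S) (pm : ℕ) : List (ℕ × RT) → S
  | [] => 0
  | t :: l => sg (t.1 >>> pm) • M.evR x t.2 + evE x pm l

/-- an engine schema is valid -/
def VS (e : ES) : Prop :=
  ∀ pm < e.1, ∀ x : ℕ → S, (∀ i, x i ∈ M.H (pm.testBit i)) → evE M x pm e.2 = 0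

/-- all schemas are valid -/
def VSs (L : List ES) : Prop := ∀ e ∈ L, VS M e

theorem getS_VS {L : List ES} (h : VSs M L) (n : ℕ) : VS M (getS L n) := by
  induction L generalizing n with
  | nil => intro pm hpm; exact absurd hpm (by simp [getS])
  | cons s L ih =>
    cases n with
    | zero => exact h _ (List.mem_cons_self ..)
    | succ n => exact ih (fun e he => h e (List.mem_cons_of_mem _ he)) n

/-- good normal form trees -/
def GoodL (f : ℕ → S) (t : TT) : Prop :=
  ∀ x L, find x t = L + 1 → symval M f x = lv (vw f) L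

variable {M}

theorem goodP_of_goodL {f : ℕ → S} (h0 : f 0 = 0) {t : TT} (h : GoodL M f t) :
    GoodP M f (accL f) pushL t := by
  intro x n acc hx
  obtain ⟨L, hL, h1⟩ := pushL_sound h0 hx
  rw [h x L hL]
  exact h1

theorem goodL_of_all {f : ℕ → S} {t : TT}
    (h : t.All fun k v _ => ∀ L, v = L + 1 → symval M f k = lv (vw f) L) : GoodL M f t := by
  intro x L hx
  obtain ⟨c, h1⟩ := find_all h (x := x) (by omega)
  exact h1 L hx

/-- value of the letters of an instance -/
noncomputable def xA (f : ℕ → S) (args : List ℕ) (i : ℕ) : S := f (getA args i % 4096)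

theorem xA_mem {f : ℕ → S} (hf : ∀ g, f g ∈ M.H (od g)) (args : List ℕ) (i : ℕ) :
    xA f args i ∈ M.H ((parA args).testBit i) := by
  rw [parA_testBit, xA]
  have h := hf (getA args i % 4096)
  have e : od (getA args i % 4096) = od (getA args i) := by
    rw [od, od]
    have : getA args i % 4096 % 2 = getA args i % 2 := by omega
    rw [this]
  rwa [e] at h

variable (h3 : ∀ x : S, (3 : ℤ) • x = 0) {f : ℕ → S} (hf : ∀ g, f g ∈ M.H (od g)) (h0 : f 0 = 0)
include h3 hf h0

variable {low : TT} (hl : GoodL M f low)
include hl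

theorem evN_sound (args : List ℕ) (t : Tr) : evN low args t ≠ 0 →
    M.evT (xA f args) t = lv (vw f) (evN low args t - 1) := by
  induction t with
  | l i =>
    intro _
    have e : evN low args (.l i) = (2 * getA args i) % 8192 + 1 := rfl
    rw [e, Nat.add_sub_cancel, lv_single _ (vw_zero h0) (by omega), Sem.evT, xA, vw]
    have h1 : 2 * getA args i % 8192 / 2 = getA args i % 4096 := by omega
    have h2 : sg (2 * getA args i % 8192) = 1 := by rw [sg, if_neg (by omega)]
    rw [h1, h2, one_smul]
  | c s t ihs iht =>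
    intro h
    have e : evN low args (.c s t) = nb 0 (evN low args s) fun m => nb 0 (evN low args t) fun n =>
      b2 bnN 0 pushL low m n 0 1 := rfl
    rw [e] at h ⊢
    obtain ⟨x, hx, h1⟩ := nb_spec (accL f).bad_not h
    rw [h1] at h ⊢
    obtain ⟨y, hy, h2⟩ := nb_spec (accL f).bad_not h
    rw [h2] at h ⊢
    have hs := ihs (by omega)
    have ht := iht (by omega)
    rw [hx, Nat.add_sub_cancel] at hs
    rw [hy, Nat.add_sub_cancel] at ht
    have h4 := b2_sound (A := accL f) (goodP_of_goodL h0 hl) h3 hf h
    rw [Sem.evT, hs, ht]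
    have h5 := h4.2
    rw [sg_zero, one_smul] at h5
    have h6 : (accL f).V 1 = 0 := lv_zero _
    rw [h6, zero_add] at h5
    exact h5.symm
  | a s t u ihs iht ihu =>
    intro h
    have e : evN low args (.a s t u) = nb 0 (evN low args s) fun m =>
      nb 0 (evN low args t) fun n => nb 0 (evN low args u) fun o =>
      b3 bnN 0 pushL low m n o 0 1 := rfl
    rw [e] at h ⊢
    obtain ⟨x, hx, h1⟩ := nb_spec (accL f).bad_not h
    rw [h1] at h ⊢
    obtain ⟨y, hy, h2⟩ := nb_spec (accL f).bad_not h
    rw [h2] at h ⊢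
    obtain ⟨z, hz, h7⟩ := nb_spec (accL f).bad_not h
    rw [h7] at h ⊢
    have hs := ihs (by omega)
    have ht := iht (by omega)
    have hu := ihu (by omega)
    rw [hx, Nat.add_sub_cancel] at hs
    rw [hy, Nat.add_sub_cancel] at ht
    rw [hz, Nat.add_sub_cancel] at hu
    have h4 := b3_sound (A := accL f) (goodP_of_goodL h0 hl) h3 hf h
    rw [Sem.evT, hs, ht, hu]
    have h5 := h4.2
    rw [sg_zero, one_smul] at h5
    have h6 : (accL f).V 1 = 0 := lv_zero _
    rw [h6, zero_add] at h5
    exact h5.symm

variable {N : ℕ} {k : ℕ → S} {top : TT} (ht : GoodP M f (accR N k) pushA top)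
include ht

theorem evR_sound (args : List ℕ) (t : RT) (n : ℕ) (acc : AC)
    (h : (accR N k).Good (evR low top args t n acc)) :
    Adv (accR N k) (sg n • M.evR (xA f args) t) acc (evR low top args t n acc) := by
  cases t with
  | c s t =>
    have e : evR low top args (.c s t) n acc = nb AC.bad (evN low args s) fun x =>
      nb AC.bad (evN low args t) fun y => b2 bnA AC.bad pushA top x y n acc := rfl
    rw [e] at h ⊢
    obtain ⟨x, hx, h1⟩ := nb_spec (accR N k).bad_not h
    rw [h1] at h ⊢
    obtain ⟨y, hy, h2⟩ := nb_spec (accR N k).bad_not h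
    rw [h2] at h ⊢
    have hs := evN_sound h3 hf h0 hl args s (by omega)
    have ht' := evN_sound h3 hf h0 hl args t (by omega)
    rw [hx, Nat.add_sub_cancel] at hs
    rw [hy, Nat.add_sub_cancel] at ht'
    rw [Sem.evR, hs, ht']
    exact b2_sound ht h3 hf h
  | a s t u =>
    have e : evR low top args (.a s t u) n acc = nb AC.bad (evN low args s) fun x =>
      nb AC.bad (evN low args t) fun y => nb AC.bad (evN low args u) fun z =>
      b3 bnA AC.bad pushA top x y z n acc := rfl
    rw [e] at h ⊢
    obtain ⟨x, hx, h1⟩ := nb_spec (accR N k).bad_not h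
    rw [h1] at h ⊢
    obtain ⟨y, hy, h2⟩ := nb_spec (accR N k).bad_not h
    rw [h2] at h ⊢
    obtain ⟨z, hz, h7⟩ := nb_spec (accR N k).bad_not h
    rw [h7] at h ⊢
    have hs := evN_sound h3 hf h0 hl args s (by omega)
    have ht' := evN_sound h3 hf h0 hl args t (by omega)
    have hu := evN_sound h3 hf h0 hl args u (by omega)
    rw [hx, Nat.add_sub_cancel] at hs
    rw [hy, Nat.add_sub_cancel] at ht'
    rw [hz, Nat.add_sub_cancel] at hu
    rw [Sem.evR, hs, ht', hu]
    exact b3_sound ht h3 hf h
  | j s t =>
    have e : evR low top args (.j s t) n acc = nb AC.bad (evN low args s) fun x =>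
      nb AC.bad (evN low args t) fun y => bj bnA AC.bad pushA top x y n acc := rfl
    rw [e] at h ⊢
    obtain ⟨x, hx, h1⟩ := nb_spec (accR N k).bad_not h
    rw [h1] at h ⊢
    obtain ⟨y, hy, h2⟩ := nb_spec (accR N k).bad_not h
    rw [h2] at h ⊢
    have hs := evN_sound h3 hf h0 hl args s (by omega)
    have ht' := evN_sound h3 hf h0 hl args t (by omega)
    rw [hx, Nat.add_sub_cancel] at hs
    rw [hy, Nat.add_sub_cancel] at ht'
    rw [Sem.evR, hs, ht']
    exact bj_sound ht h3 hf h

theorem evL_sound (args : List ℕ) (pm : ℕ) (s : List (ℕ × RT)) : ∀ acc : AC,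
    (accR N k).Good (evL low top args pm s acc) →
    Adv (accR N k) (evE M (xA f args) pm s) acc (evL low top args pm s acc) := by
  induction s with
  | nil =>
    intro acc h
    exact Adv.refl h
  | cons t s ih =>
    intro acc h
    have e : evL low top args pm (t :: s) acc =
      bnA (nb AC.bad (Nat.succ (Nat.shiftRight t.1 pm)) fun n => evR low top args t.2 n acc)
        fun acc' => evL low top args pm s acc' := rfl
    rw [e] at h ⊢
    obtain ⟨h1, h2⟩ := (accR N k).bn_spec _ _ h
    rw [h2] at h ⊢
    have e2 : (nb AC.bad (Nat.succ (Nat.shiftRight t.1 pm)) fun n => evR low top args t.2 n acc) =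
      evR low top args t.2 (t.1 >>> pm) acc := rfl
    rw [e2] at h1 h ⊢
    rw [evE]
    exact (evR_sound h3 hf h0 hl ht args t.2 (t.1 >>> pm) acc h1).trans (ih _ h)

/-- the row of an instance of a valid schema has the value zero -/
theorem evS_sound (args : List ℕ) {s : ES} (hs : VS M s) (acc : AC)
    (h : (accR N k).Good (evS low top args s acc)) :
    Adv (accR N k) 0 acc (evS low top args s acc) := by
  have e : evS low top args s acc = Bool.rec (motive := fun _ => AC) AC.bad
    (evL low top args (parA args) s.2 acc) (Nat.ble (Nat.succ (parA args)) s.1) := rfl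
  rw [e] at h ⊢
  by_cases hb : Nat.ble (Nat.succ (parA args)) s.1 = true
  · rw [hb] at h ⊢
    have h1 := evL_sound h3 hf h0 hl ht args (parA args) s.2 acc h
    rw [hs (parA args) (Nat.le_of_ble_eq_true hb) _ (xA_mem hf args)] at h1
    exact h1
  · rw [Bool.not_eq_true] at hb
    rw [hb] at h
    exact absurd rfl h

/-- the row of an instance -/
theorem evS_sound' (args : List ℕ) (s : ES) (acc : AC)
    (h : (accR N k).Good (evS low top args s acc)) :
    Adv (accR N k) (evE M (xA f args) (parA args) s.2) acc (evS low top args s acc) := by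
  have e : evS low top args s acc = Bool.rec (motive := fun _ => AC) AC.bad
    (evL low top args (parA args) s.2 acc) (Nat.ble (Nat.succ (parA args)) s.1) := rfl
  rw [e] at h ⊢
  by_cases hb : Nat.ble (Nat.succ (parA args)) s.1 = true
  · rw [hb] at h ⊢
    exact evL_sound h3 hf h0 hl ht args (parA args) s.2 acc h
  · rw [Bool.not_eq_true] at hb
    rw [hb] at h
    exact absurd rfl h

theorem cmpR_sound {acc : AC} {P Q : ℕ} (h : cmpR acc P Q = true) :
    acc ≠ AC.bad ∧ acV N k acc = er N k P Q := by
  cases acc with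
  | bad => exact absurd h (by simp [cmpR])
  | mk a b =>
    have e : cmpR (AC.mk a b) P Q = Bool.rec (motive := fun _ => Bool) false
      (Nat.beq (b &&& (a ^^^ b)) Q) (Nat.beq (a &&& (a ^^^ b)) P) := rfl
    rw [e] at h
    obtain ⟨h1, h2⟩ := bool2 h
    refine ⟨by simp, ?_⟩
    rw [acV, ← er_norm, Nat.eq_of_beq_eq_true h1, Nat.eq_of_beq_eq_true h2]

theorem checkI_sound {L : List ES} (hL : VSs M L) {it : IT} (h : checkI L low top it = true) :
    it.All fun _ _ _ P Q => er N k P Q = 0 := by
  induction it with
  | lf => trivial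
  | nd l i s args a b r ihl ihr =>
    have e : checkI L low top (.nd l i s args a b r) = Bool.rec (motive := fun _ => Bool) false
        (Bool.rec (motive := fun _ => Bool) false (checkI L low top r) (checkI L low top l))
        (cmpR (evS low top args (getS L s) (AC.mk 0 0)) a b) := rfl
    rw [e] at h
    obtain ⟨h1, h⟩ := bool2 h
    obtain ⟨h5, h4⟩ := bool2 h
    refine ⟨?_, ihl h5, ihr h4⟩
    change er N k a b = 0
    obtain ⟨h6, h7⟩ := cmpR_sound h3 hf h0 hl ht h1
    have h8 := evS_sound h3 hf h0 hl ht args (getS_VS M hL s) (AC.mk 0 0) h6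
    rw [← h7]
    have h9 := h8.2
    rw [add_zero] at h9
    exact h9.trans (er_zero N k)

end

/-! ### tables -/

section
variable {S : Type*} [AddCommGroup S] {M : Sem S}

theorem all_of_checkK {K : ℕ} {t : TT} (h : checkK K t = true) :
    t.All fun k v _ => v ≤ 8192 ∧ fld K (v - 1) = k := by
  induction t with
  | lf => trivial
  | nd l k v c r ihl ihr =>
    have e : checkK K (.nd l k v c r) = Bool.rec (motive := fun _ => Bool) false
        (Bool.rec (motive := fun _ => Bool) false
          (Bool.rec (motive := fun _ => Bool) false (checkK K r) (checkK K l))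
          (Nat.beq (fld K (Nat.pred v)) k))
        (Nat.ble v 8192) := rfl
    rw [e] at h
    obtain ⟨h1, h⟩ := bool2 h
    obtain ⟨h2, h⟩ := bool2 h
    obtain ⟨h3, h4⟩ := bool2 h
    exact ⟨⟨Nat.le_of_ble_eq_true h1, Nat.eq_of_beq_eq_true h2⟩, ihl h3, ihr h4⟩

variable (h3 : ∀ x : S, (3 : ℤ) • x = 0)
include h3

theorem goodP_of_checkK (f : ℕ → S) {K : ℕ} {t : TT} (h : checkK K t = true) :
    GoodP M f (accR 8192 (fun i => symval M f (fld K i))) pushA t := by
  intro x n acc hx
  have hne : find x t ≠ 0 := by
    intro h0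
    rw [h0] at hx
    exact hx rfl
  obtain ⟨c, h4, h5⟩ := find_all (all_of_checkK h) hne
  obtain ⟨i, hi, h6⟩ := pushA_sound h3 (k := fun i => symval M f (fld K i)) h4 hx
  rw [hi, Nat.add_sub_cancel] at h5
  rw [h5] at h6
  exact h6

theorem sumRows_sound {N : ℕ} {k : ℕ → S} {it : IT}
    (hi : it.All fun _ _ _ P Q => er N k P Q = 0) {c : ℕ}
    (h : (accR N k).Good (sumRows it c)) : acV N k (sumRows it c) = 0 := by
  have hf : ∀ a acc, a < 8192 → (accR N k).Good
      (AC.rec (motive := fun _ => AC) AC.bad (fun A B =>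
        Bool.rec (motive := fun _ => AC)
          (findI (Nat.div a 2) (fun P M => addR A B M P) it)
          (findI (Nat.div a 2) (fun P M => addR A B P M) it)
          (Nat.beq (Nat.mod a 2) 0)) acc) →
      Adv (accR N k) ((fun _ => (0 : S)) ((fun _ => (0 : S)) a)) acc
      (AC.rec (motive := fun _ => AC) AC.bad (fun A B =>
        Bool.rec (motive := fun _ => AC)
          (findI (Nat.div a 2) (fun P M => addR A B M P) it)
          (findI (Nat.div a 2) (fun P M => addR A B P M) it)
          (Nat.beq (Nat.mod a 2) 0)) acc) := by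
    intro a acc _ hv
    cases acc with
    | bad => exact absurd rfl hv
    | mk A B =>
      refine ⟨by simp [accR], ?_⟩
      by_cases hb : Nat.beq (Nat.mod a 2) 0 = true
      · rw [hb] at hv ⊢
        obtain ⟨s, args, P, Q, h5, h6⟩ := findI_all hi (f := fun P M => addR A B P M) hv
        have h6' : (AC.rec (motive := fun _ => AC) AC.bad (fun A B =>
          Bool.rec (motive := fun _ => AC)
            (findI (Nat.div a 2) (fun P M => addR A B M P) it)
            (findI (Nat.div a 2) (fun P M => addR A B P M) it)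
            true) (AC.mk A B)) = addR A B P Q := h6
        rw [h6']
        obtain ⟨P', Q', h7, h8⟩ := addR_sound h3 N k A B P Q
        rw [h7]
        change er N k P' Q' = er N k A B + 0
        rw [h8, h5]
      · rw [Bool.not_eq_true] at hb
        rw [hb] at hv ⊢
        obtain ⟨s, args, P, Q, h5, h6⟩ := findI_all hi (f := fun P M => addR A B M P) hv
        have h6' : (AC.rec (motive := fun _ => AC) AC.bad (fun A B =>
          Bool.rec (motive := fun _ => AC)
            (findI (Nat.div a 2) (fun P M => addR A B M P) it)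
            (findI (Nat.div a 2) (fun P M => addR A B P M) it)
            false) (AC.mk A B)) = addR A B Q P := h6
        rw [h6']
        obtain ⟨P', Q', h7, h8⟩ := addR_sound h3 N k A B Q P
        rw [h7]
        change er N k P' Q' = er N k A B + 0
        rw [h8, er_swap N k P Q, h5, neg_zero]
  have h5 := loopR_sound (A := accR N k) (g := fun _ => (0 : S)) (F := fun _ => (0 : S))
    (by intros; simp) hf h
  have h6 := h5.2
  rw [add_zero] at h6
  exact h6.trans (er_zero N k)

variable {DK : ℕ} {gen : ℕ → S} (hD : validD DK 64 = true)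
include hD

theorem defAdd_sound {N : ℕ} {k : ℕ → S} {top : TT}
    (ht : GoodP M (val M DK gen) (accR N k) pushA top) {L : ℕ} {acc : AC}
    (h : (accR N k).Good (defAdd DK top L acc)) :
    Adv (accR N k) (lv (vw (val M DK gen)) L) acc (defAdd DK top L acc) := by
  refine loopR_sound (F := fun x => x) (fun _ _ => rfl) ?_ h
  intro a b ha hv
  by_cases h6 : Nat.ble 12 a = true
  · rw [h6] at hv ⊢
    have h7 := Nat.le_of_ble_eq_true h6
    rw [vw, val_def M gen (show 6 ≤ a / 2 by omega)
      (validD_sound hD (a / 2) (by omega) (by omega))]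
    exact look_sound ht hv
  · rw [Bool.not_eq_true] at h6
    rw [h6] at hv
    exact absurd rfl hv

omit h3 hD in
theorem isZ_sound {N : ℕ} {k : ℕ → S} {acc : AC} (h : isZ acc = true) :
    acc ≠ AC.bad ∧ acV N k acc = 0 := by
  cases acc with
  | bad => exact absurd h (by simp [isZ])
  | mk a b =>
    have h' : Nat.beq a b = true := h
    refine ⟨by simp, ?_⟩
    rw [acV, Nat.eq_of_beq_eq_true h', er_same]

theorem checkN_sound {N : ℕ} {k : ℕ → S} {top : TT}
    (ht : GoodP M (val M DK gen) (accR N k) pushA top) {it : IT}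
    (hi : it.All fun _ _ _ P Q => er N k P Q = 0) (hg0 : gen 0 = 0) {x L c : ℕ}
    (h : checkN DK top it x L c = true) :
    symval M (val M DK gen) x = lv (vw (val M DK gen)) L := by
  have e : checkN DK top it x L c = Bool.rec (motive := fun _ => Bool)
    (isZ (bnA (sumRows it c) fun r => bnA (defAdd DK top L r) fun w =>
        look AC.bad pushA top x 1 w))
    (Bool.rec (motive := fun _ => Bool) false
      (Bool.rec (motive := fun _ => Bool) false
        (Bool.rec (motive := fun _ => Bool) false
          (Nat.beq (fld DK (Nat.div L 2)) x)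
          (Nat.beq (Nat.mod L 2) 0))
        (Nat.ble L 8191))
      (Nat.ble 12 L))
    (Nat.beq c 0) := rfl
  rw [e] at h
  by_cases hc : Nat.beq c 0 = true
  · rw [hc] at h
    obtain ⟨h4, h⟩ := bool2 h
    obtain ⟨h5, h⟩ := bool2 h
    obtain ⟨h6, h7⟩ := bool2 h
    have h4' := Nat.le_of_ble_eq_true h4
    have h5' := Nat.le_of_ble_eq_true h5
    have h6' : L % 2 = 0 := Nat.eq_of_beq_eq_true h6
    have h7' : fld DK (L / 2) = x := Nat.eq_of_beq_eq_true h7
    have hv0 : val M DK gen 0 = 0 := by rw [val_gen M DK gen (by norm_num), hg0]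
    rw [lv_single _ (vw_zero hv0) h5', vw, sg, if_neg (by omega), one_smul,
      val_def M gen (show 6 ≤ L / 2 by omega) (validD_sound hD (L / 2) (by omega) (by omega)), h7']
  · rw [Bool.not_eq_true] at hc
    rw [hc] at h
    obtain ⟨h4, h5⟩ := isZ_sound (N := N) (k := k) h
    obtain ⟨h6, h7⟩ := (accR N k).bn_spec _ _ h4
    rw [h7] at h4 h5
    obtain ⟨h8, h9⟩ := (accR N k).bn_spec _ _ h4
    rw [h9] at h4 h5
    have h10 := sumRows_sound h3 hi h6
    have h11 := (defAdd_sound h3 hD ht h8).trans (look_sound ht h4)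
    have h12 := h11.2
    change acV N k _ = acV N k _ + _ at h12
    rw [h5, h10, zero_add, sg_one, neg_smul, one_smul, ← sub_eq_add_neg] at h12
    exact (sub_eq_zero.mp h12.symm).symm

theorem checkC_sound {N : ℕ} {k : ℕ → S} {top : TT}
    (ht : GoodP M (val M DK gen) (accR N k) pushA top) {it : IT}
    (hi : it.All fun _ _ _ P Q => er N k P Q = 0) (hg0 : gen 0 = 0) {t : TT}
    (h : checkC DK top it t = true) :
    t.All fun x v _ => ∀ L, v = L + 1 →
      symval M (val M DK gen) x = lv (vw (val M DK gen)) L := by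
  induction t with
  | lf => trivial
  | nd l x v c r ihl ihr =>
    have e : checkC DK top it (.nd l x v c r) = Bool.rec (motive := fun _ => Bool) false
        (Bool.rec (motive := fun _ => Bool) false (checkC DK top it r) (checkC DK top it l))
        (nbB v fun L => checkN DK top it x L c) := rfl
    rw [e] at h
    obtain ⟨h4, h⟩ := bool2 h
    obtain ⟨h5, h6⟩ := bool2 h
    obtain ⟨m, hm, h4⟩ := nbB_eq h4
    refine ⟨?_, ihl h5, ihr h6⟩
    intro m' hm'
    obtain rfl : m = m' := by omega
    exact checkN_sound h3 hD ht hi hg0 h4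

omit h3 hD in
theorem findL_sound {f : ℕ → S} {ts : List TT} (h : ∀ t ∈ ts, GoodL M f t) {x : ℕ} {m : ℕ}
    (hx : findL x ts = m + 1) : symval M f x = lv (vw f) m := by
  induction ts with
  | nil => exact absurd hx (by simp [findL])
  | cons t ts ih =>
    have e : findL x (t :: ts) =
      Nat.rec (motive := fun _ => ℕ) (findL x ts) (fun n _ => Nat.succ n) (find x t) := rfl
    rw [e] at hx
    rcases hf : find x t with _ | n
    · rw [hf] at hx
      exact ih (fun t ht => h t (List.mem_cons_of_mem _ ht)) hx
    · rw [hf] at hx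
      have h1 : n + 1 = m + 1 := hx
      exact h t (List.mem_cons_self ..) x m (by omega)

omit h3 hD in
theorem checkU_sound {f : ℕ → S} {ts : List TT} (h : ∀ t ∈ ts, GoodL M f t) {t : TT}
    (hu : checkU ts t = true) : GoodL M f t := by
  apply goodL_of_all
  induction t with
  | lf => trivial
  | nd l x v c r ihl ihr =>
    have e : checkU ts (.nd l x v c r) = Bool.rec (motive := fun _ => Bool) false
        (Bool.rec (motive := fun _ => Bool) false
          (Bool.rec (motive := fun _ => Bool) false (checkU ts r) (checkU ts l))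
          (Nat.beq (findL x ts) v))
        (Nat.ble 1 v) := rfl
    rw [e] at hu
    obtain ⟨h1, hu⟩ := bool2 hu
    obtain ⟨h3, hu⟩ := bool2 hu
    obtain ⟨h4, h5⟩ := bool2 hu
    have h7 := Nat.eq_of_beq_eq_true h3
    refine ⟨?_, ihl h4, ihr h5⟩
    intro m hm
    exact findL_sound h (by omega)

end

/-! ### stages -/

/-- the standing assumptions -/
structure Ctx {S : Type*} [AddCommGroup S] (M : Sem S) (DK : ℕ) (gen : ℕ → S) : Prop where
  h3 : ∀ x : S, (3 : ℤ) • x = 0
  hD : validD DK 64 = true
  hg : ∀ i, i < 6 → gen i ∈ M.H (od i)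
  hg0 : gen 0 = 0

section
variable {S : Type*} [AddCommGroup S] {M : Sem S} {DK : ℕ} {gen : ℕ → S} (H : Ctx M DK gen)
include H

theorem Ctx.val0 : val M DK gen 0 = 0 := by rw [val_gen M DK gen (by norm_num), H.hg0]

/-- one stage: all tables of one multidegree -/
theorem stage_sound {L : List ES} (hL : VSs M L) {K : ℕ} {low top : TT}
    (hl : GoodL M (val M DK gen) low)
    (hK : checkK K top = true) {it : IT} (hI : checkI L low top it = true) {t : TT}
    (hC : checkC DK top it t = true) : GoodL M (val M DK gen) t := by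
  have ht := goodP_of_checkK (M := M) H.h3 (val M DK gen) hK
  exact goodL_of_all (checkC_sound H.h3 H.hD ht
    (checkI_sound H.h3 (val_mem M DK H.hg) H.val0 hl ht hL hI) H.hg0 hC)

/-- the final check -/
noncomputable def checkF (low top : TT) (it : IT) (args : List ℕ) (s : ES) (c : ℕ) : Bool :=
  isZ (bnA (sumRows it c) fun acc => evS low top args s acc)

theorem final_sound {L : List ES} (hL : VSs M L) {K : ℕ} {low top : TT}
    (hl : GoodL M (val M DK gen) low)
    (hK : checkK K top = true) {it : IT} (hI : checkI L low top it = true)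
    {args : List ℕ} {s : ES} {c : ℕ} (hF : checkF low top it args s c = true) :
    evE M (xA (val M DK gen) args) (parA args) s.2 = 0 := by
  have ht := goodP_of_checkK (M := M) H.h3 (val M DK gen) hK
  have hi := checkI_sound H.h3 (val_mem M DK H.hg) H.val0 hl ht hL hI
  obtain ⟨h4, h5⟩ := isZ_sound (N := 8192) (k := fun i => symval M (val M DK gen) (fld K i)) hF
  obtain ⟨h6, h7⟩ := (accR 8192 fun i => symval M (val M DK gen) (fld K i)).bn_spec _ _ h4
  rw [h7] at h4 h5
  have h8 := (evS_sound' H.h3 (val_mem M DK H.hg) H.val0 hl ht args s _ h4).2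
  have h9 := sumRows_sound H.h3 hi h6
  change acV _ _ _ = acV _ _ _ + _ at h8
  rw [h5, h9, zero_add] at h8
  exact h8.symm

end

end H8Alt.C3
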